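import Pool.Agent.Q198.CI.Law

/-! # Moments of a law with independence of bounded order; the sharp upper bound -/

set_option autoImplicit false

namespace Q167.LI

open Finset Q198.CI

lemma law_moment {I : Finset ℕ} {K : ℕ} {p : ℕ → ℝ} {v : Finset ℕ → ℝ} (hv : IsLaw I K p v)
    {U : Finset ℕ} (hU : U ⊆ I) (hUK : U.card ≤ K) (f0 f1 : ℕ → ℝ) :
    ∑ S ∈ I.powerset, v S * ∏ i ∈ U, (if i ∈ S then f1 i else f0 i) =
      ∏ i ∈ U, (p i * f1 i + (1 - p i) * f0 i) := by
  classical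
  have h1 : ∀ S ∈ I.powerset, v S * ∏ i ∈ U, (if i ∈ S then f1 i else f0 i) =
      ∑ R ∈ U.powerset, (if R ⊆ S then v S else 0) *
        ((∏ i ∈ R, (f1 i - f0 i)) * ∏ i ∈ U \ R, f0 i) := by
    intro S _
    have h2 : ∀ i ∈ U, (if i ∈ S then f1 i else f0 i) =
        (if i ∈ S then 1 else 0) * (f1 i - f0 i) + f0 i := by
      intro i _
      split_ifs <;> ring
    rw [prod_congr rfl h2, prod_add, mul_sum]
    refine sum_congr rfl fun R _ => ?_
    rw [prod_mul_distrib, prod_ite_zero]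
    by_cases hR : R ⊆ S
    · rw [if_pos hR, if_pos (fun i hi => hR hi)]
      simp
    · rw [if_neg hR, if_neg (fun h => hR fun i hi => h i hi)]
      simp
  rw [sum_congr rfl h1, sum_comm]
  have h3 : ∀ R ∈ U.powerset, ∑ S ∈ I.powerset, (if R ⊆ S then v S else 0) *
        ((∏ i ∈ R, (f1 i - f0 i)) * ∏ i ∈ U \ R, f0 i) =
      (∏ i ∈ R, p i * (f1 i - f0 i)) * ∏ i ∈ U \ R, f0 i := by
    intro R hR
    rw [mem_powerset] at hR
    rw [← sum_mul, ← sum_filter]
    have e : I.powerset.filter (fun S => R ⊆ S) = Icc R I := by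
      ext S
      simp only [mem_Icc, mem_filter, mem_powerset]
      exact and_comm
    rw [e, hv.2 R (hR.trans hU) ((card_le_card hR).trans hUK), prod_mul_distrib]
    ring
  rw [sum_congr rfl h3, ← prod_add]
  refine prod_congr rfl fun i _ => ?_
  ring

/-- product of two monomials -/
lemma mono_mul (T T' S : Finset ℕ) (g0 g1 : ℕ → ℝ) :
    (∏ i ∈ T, (if i ∈ S then g1 i else g0 i)) * ∏ i ∈ T', (if i ∈ S then g1 i else g0 i) =
      ∏ i ∈ T ∪ T', (if i ∈ S then (if i ∈ T then g1 i else 1) * (if i ∈ T' then g1 i else 1)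
        else (if i ∈ T then g0 i else 1) * (if i ∈ T' then g0 i else 1)) := by
  classical
  have h1 : ∏ i ∈ T, (if i ∈ S then g1 i else g0 i) =
      ∏ i ∈ T ∪ T', (if i ∈ T then (if i ∈ S then g1 i else g0 i) else 1) := by
    rw [prod_ite_mem, union_inter_cancel_left]
  have h2 : ∏ i ∈ T', (if i ∈ S then g1 i else g0 i) =
      ∏ i ∈ T ∪ T', (if i ∈ T' then (if i ∈ S then g1 i else g0 i) else 1) := by
    rw [prod_ite_mem, union_inter_cancel_right]
  rw [h1, h2, ← prod_mul_distrib]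
  refine prod_congr rfl fun i _ => ?_
  split_ifs <;> simp

/-- orthogonality of the monomials in centred variables -/
lemma orth {I : Finset ℕ} {K : ℕ} {p : ℕ → ℝ} {v : Finset ℕ → ℝ} (hv : IsLaw I K p v)
    {T T' : Finset ℕ} (hT : T ⊆ I) (hT' : T' ⊆ I) (hK : T.card + T'.card ≤ K) (g0 g1 : ℕ → ℝ)
    (hc : ∀ i ∈ I, p i * g1 i + (1 - p i) * g0 i = 0) :
    ∑ S ∈ I.powerset, v S * ((∏ i ∈ T, (if i ∈ S then g1 i else g0 i)) *
      ∏ i ∈ T', (if i ∈ S then g1 i else g0 i)) =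
      if T = T' then ∏ i ∈ T, (p i * g1 i ^ 2 + (1 - p i) * g0 i ^ 2) else 0 := by
  classical
  have h1 : ∀ S ∈ I.powerset, v S * ((∏ i ∈ T, (if i ∈ S then g1 i else g0 i)) *
      ∏ i ∈ T', (if i ∈ S then g1 i else g0 i)) =
      v S * ∏ i ∈ T ∪ T', (if i ∈ S then (if i ∈ T then g1 i else 1) * (if i ∈ T' then g1 i else 1)
        else (if i ∈ T then g0 i else 1) * (if i ∈ T' then g0 i else 1)) := by
    intro S _
    rw [mono_mul]
  rw [sum_congr rfl h1, law_moment hv (union_subset hT hT')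
    ((card_union_le _ _).trans hK)
    (fun i => (if i ∈ T then g0 i else 1) * (if i ∈ T' then g0 i else 1))
    (fun i => (if i ∈ T then g1 i else 1) * (if i ∈ T' then g1 i else 1))]
  by_cases hTT : T = T'
  · subst hTT
    rw [if_pos rfl, union_self]
    refine prod_congr rfl fun i hi => ?_
    rw [if_pos hi, if_pos hi]
    ring
  · rw [if_neg hTT]
    have : ∃ i ∈ T ∪ T', ¬ (i ∈ T ↔ i ∈ T') := by
      by_contra h
      push Not at h
      apply hTT
      ext i
      constructor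
      · intro hi
        exact (h i (mem_union_left _ hi)).1 hi
      · intro hi
        exact (h i (mem_union_right _ hi)).2 hi
    obtain ⟨i, hi, hne⟩ := this
    refine prod_eq_zero hi ?_
    have hiI : i ∈ I := (union_subset hT hT') hi
    by_cases h2 : i ∈ T
    · have h3 : i ∉ T' := fun h3 => hne ⟨fun _ => h3, fun _ => h2⟩
      simp only [h2, h3, if_true, if_false, mul_one]
      exact hc i hiI
    · have h3 : i ∈ T' := by
        rcases mem_union.1 hi with h | h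
        · exact absurd h h2
        · exact h
      simp only [h2, h3, if_true, if_false, one_mul]
      exact hc i hiI

/-- expectation of the product of two combinations -/
lemma parseval {I : Finset ℕ} {K : ℕ} {p : ℕ → ℝ} {v : Finset ℕ → ℝ} (hv : IsLaw I K p v)
    {F : Finset (Finset ℕ)} (hF : ∀ T ∈ F, T ⊆ I) (hK : ∀ T ∈ F, ∀ T' ∈ F, T.card + T'.card ≤ K)
    (g0 g1 : ℕ → ℝ) (hc : ∀ i ∈ I, p i * g1 i + (1 - p i) * g0 i = 0) (α β : Finset ℕ → ℝ) :
    ∑ S ∈ I.powerset, v S * ((∑ T ∈ F, α T * ∏ i ∈ T, (if i ∈ S then g1 i else g0 i)) *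
      ∑ T ∈ F, β T * ∏ i ∈ T, (if i ∈ S then g1 i else g0 i)) =
      ∑ T ∈ F, α T * β T * ∏ i ∈ T, (p i * g1 i ^ 2 + (1 - p i) * g0 i ^ 2) := by
  classical
  have h1 : ∀ S ∈ I.powerset, v S * ((∑ T ∈ F, α T * ∏ i ∈ T, (if i ∈ S then g1 i else g0 i)) *
      ∑ T ∈ F, β T * ∏ i ∈ T, (if i ∈ S then g1 i else g0 i)) =
      ∑ T ∈ F, ∑ T' ∈ F, α T * β T' * (v S * ((∏ i ∈ T, (if i ∈ S then g1 i else g0 i)) *
        ∏ i ∈ T', (if i ∈ S then g1 i else g0 i))) := by
    intro S _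
    rw [sum_mul_sum, mul_sum]
    refine sum_congr rfl fun T _ => ?_
    rw [mul_sum]
    refine sum_congr rfl fun T' _ => ?_
    ring
  rw [sum_congr rfl h1, sum_comm]
  refine sum_congr rfl fun T hT => ?_
  rw [sum_comm]
  have h2 : ∀ T' ∈ F, ∑ S ∈ I.powerset, α T * β T' *
      (v S * ((∏ i ∈ T, (if i ∈ S then g1 i else g0 i)) *
        ∏ i ∈ T', (if i ∈ S then g1 i else g0 i))) =
      if T = T' then α T * β T * ∏ i ∈ T, (p i * g1 i ^ 2 + (1 - p i) * g0 i ^ 2) else 0 := by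
    intro T' hT'
    rw [← mul_sum, orth hv (hF T hT) (hF T' hT') (hK T hT T' hT') g0 g1 hc]
    split_ifs with h
    · rw [h]
    · ring
  rw [sum_congr rfl h2, sum_ite_eq, if_pos hT]

/-- the sharp upper bound for the probability of an empty block -/
theorem sharp_upper {I : Finset ℕ} {m : ℕ} {p : ℕ → ℝ} {v : Finset ℕ → ℝ}
    (hp : ∀ n ∈ I, 0 ≤ p n) (hp1 : ∀ n ∈ I, p n < 1) (hv : IsLaw I (2 * m) p v) :
    v ∅ * ∑ T ∈ I.powerset with T.card ≤ m, ∏ n ∈ T, (p n / (1 - p n)) ≤ 1 := by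
  classical
  set F : Finset (Finset ℕ) := I.powerset.filter (fun T => T.card ≤ m) with hF
  set r : ℕ → ℝ := fun n => p n / (1 - p n) with hr
  set Kq : ℝ := ∑ T ∈ F, ∏ n ∈ T, r n with hKq
  have hr0 : ∀ n ∈ I, 0 ≤ r n := fun n hn => div_nonneg (hp n hn) (by linarith [hp1 n hn])
  have hFI : ∀ T ∈ F, T ⊆ I := fun T hT => mem_powerset.1 (mem_filter.1 hT).1
  have hFc : ∀ T ∈ F, ∀ T' ∈ F, T.card + T'.card ≤ 2 * m := fun T hT T' hT' => by
    have h1 := (mem_filter.1 hT).2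
    have h2 := (mem_filter.1 hT').2
    omega
  have hc : ∀ i ∈ I, p i * (-1) + (1 - p i) * r i = 0 := by
    intro i hi
    have : (1 - p i) ≠ 0 := by linarith [hp1 i hi]
    rw [hr]
    field_simp
    ring
  have hpar := parseval hv hFI hFc r (fun _ => (-1 : ℝ)) hc (fun _ => 1) (fun _ => 1)
  have h1 : ∑ T ∈ F, (1 : ℝ) * 1 * ∏ i ∈ T, (p i * (-1) ^ 2 + (1 - p i) * r i ^ 2) = Kq := by
    refine sum_congr rfl fun T hT => ?_
    rw [one_mul, one_mul]
    refine prod_congr rfl fun i hi => ?_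
    have hi' : (1 - p i) ≠ 0 := by linarith [hp1 i (hFI T hT hi)]
    rw [hr]
    field_simp
    ring
  rw [h1] at hpar
  have hKpos : 1 ≤ Kq := by
    have h2 : (∅ : Finset ℕ) ∈ F := by
      rw [hF, mem_filter]
      exact ⟨empty_mem_powerset _, by simp⟩
    have h3 := single_le_sum (f := fun T : Finset ℕ => ∏ n ∈ T, r n)
      (fun T hT => prod_nonneg fun n hn => hr0 n (hFI T hT hn)) h2
    simpa using h3
  have h4 : v ∅ * (Kq * Kq) ≤ Kq := by
    have h6 := single_le_sum (f := fun S : Finset ℕ =>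
      v S * ((∑ T ∈ F, 1 * ∏ i ∈ T, (if i ∈ S then (-1 : ℝ) else r i)) *
      ∑ T ∈ F, 1 * ∏ i ∈ T, (if i ∈ S then (-1 : ℝ) else r i)))
      (fun S hS => mul_nonneg (hv.1 S (mem_powerset.1 hS)) (mul_self_nonneg _))
      (empty_mem_powerset I)
    rw [hpar] at h6
    simpa only [one_mul, notMem_empty, if_false] using h6
  have h5 : (v ∅ * Kq) * Kq ≤ 1 * Kq := by
    rw [one_mul]
    linarith
  exact le_of_mul_le_mul_right h5 (by linarith)

end Q167.LI
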