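import Pool.Agent.Q167.LI.A

/-! # The key inequality for polynomials of degree at most `m` -/

set_option autoImplicit false

namespace Q167.LI

open Finset Q198.CI Polynomial

/-- Newton's formula -/
lemma newton {m : ℕ} (g : ℝ[X]) (hg : g.natDegree ≤ m) : ∃ d : ℕ → ℝ, (∀ j, m < j → d j = 0) ∧
    ∀ x : ℕ, g.eval (x : ℝ) = ∑ j ∈ range (x + 1), (x.choose j : ℝ) * d j := by
  refine ⟨fun j => (fwdDiff (1:ℝ))^[j] (fun y => g.eval y) 0, ?_, ?_⟩
  · intro j hj
    have := Polynomial.fwdDiff_iter_eq_zero_of_degree_lt (P := g) (lt_of_le_of_lt hg hj)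
    exact congrFun this 0
  · intro x
    have := shift_eq_sum_fwdDiff_iter (1:ℝ) (fun y => g.eval y) x 0
    simp only [zero_add, nsmul_eq_mul, mul_one] at this
    exact this

/-- the value of a monomial in the centred variables -/
noncomputable def W (u z : ℝ) (T S : Finset ℕ) : ℝ := ∏ i ∈ T, (if i ∈ S then u else z)

lemma W_insert_T {u z : ℝ} {T S : Finset ℕ} {a : ℕ} (ha : a ∉ T) :
    W u z (insert a T) S = (if a ∈ S then u else z) * W u z T S := by
  unfold W
  rw [prod_insert ha]

lemma W_insert_S {u z : ℝ} {T S : Finset ℕ} {a : ℕ} (ha : a ∉ T) :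
    W u z T (insert a S) = W u z T S := by
  unfold W
  refine prod_congr rfl fun i hi => ?_
  have : i ≠ a := fun h => ha (h ▸ hi)
  simp [this]

lemma W_empty (u z : ℝ) (T : Finset ℕ) : W u z T ∅ = z ^ T.card := by
  unfold W
  simp

/-- expansion of a function of the number of points in the centred monomials -/
lemma expand {m : ℕ} (g : ℝ[X]) (hg : g.natDegree ≤ m) {p s u z : ℝ} (h1 : p + s * u = 1)
    (h0 : p + s * z = 0) (I : Finset ℕ) : ∃ c : ℕ → ℝ, (∀ j, m < j → c j = 0) ∧
    ∀ S ⊆ I, g.eval (S.card : ℝ) = ∑ R ∈ I.powerset, c R.card * W u z R S := by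
  classical
  obtain ⟨d, hd, hgd⟩ := newton g hg
  refine ⟨fun i => ∑ k ∈ range (I.card - i + 1), ((I.card - i).choose k : ℝ) *
    (d (i + k) * p ^ (i + k - i) * s ^ i), ?_, ?_⟩
  · intro j hj
    refine sum_eq_zero fun k _ => ?_
    rw [hd (j + k) (by omega)]
    ring
  · intro S hS
    have e1 : g.eval (S.card : ℝ) = ∑ T ∈ S.powerset, d T.card := by
      rw [hgd, sum_powerset_apply_card]
      refine sum_congr rfl fun j _ => ?_
      rw [nsmul_eq_mul]
    have e2 : ∑ T ∈ S.powerset, d T.card =
        ∑ T ∈ I.powerset, d T.card * ∏ i ∈ T, (if i ∈ S then (1:ℝ) else 0) := by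
      have e3 : S.powerset = I.powerset.filter (fun T => T ⊆ S) := by
        ext T
        simp only [mem_powerset, mem_filter]
        exact ⟨fun h => ⟨h.trans hS, h⟩, fun h => h.2⟩
      rw [e3, sum_filter]
      refine sum_congr rfl fun T _ => ?_
      rw [prod_ite_zero]
      by_cases hT : T ⊆ S
      · rw [if_pos hT, if_pos (fun i hi => hT hi)]
        simp
      · rw [if_neg hT, if_neg (fun h => hT fun i hi => h i hi)]
        simp
    have e3 : ∀ T ∈ I.powerset, d T.card * ∏ i ∈ T, (if i ∈ S then (1:ℝ) else 0) =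
        ∑ R ∈ T.powerset, d T.card * (p ^ (T.card - R.card) * s ^ R.card) * W u z R S := by
      intro T _
      have e4 : ∀ i ∈ T, (if i ∈ S then (1:ℝ) else 0) = s * (if i ∈ S then u else z) + p := by
        intro i _
        split_ifs <;> linarith
      rw [prod_congr rfl e4, prod_add, mul_sum]
      refine sum_congr rfl fun R hR => ?_
      rw [mem_powerset] at hR
      rw [prod_mul_distrib, prod_const, prod_const, card_sdiff_of_subset hR]
      unfold W
      ring
    rw [e1, e2, sum_congr rfl e3]
    rw [sum_comm' (t' := I.powerset) (s' := fun R => Icc R I)]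
    · refine sum_congr rfl fun R hR => ?_
      rw [mem_powerset] at hR
      rw [← sum_mul, sum_Icc_card hR (fun t => d t * (p ^ (t - R.card) * s ^ R.card))]
      congr 1
      refine sum_congr rfl fun k _ => ?_
      ring
    · intro T R
      simp only [mem_powerset, mem_Icc]
      constructor
      · rintro ⟨h1, h2⟩
        exact ⟨⟨h2, h1⟩, h2.trans h1⟩
      · rintro ⟨⟨h2, h1⟩, _⟩
        exact ⟨h1, h2⟩

/-- the sum of the first binomial terms -/
noncomputable def KK (N m : ℕ) (r : ℝ) : ℝ := ∑ j ∈ range (m + 1), (N.choose j : ℝ) * r ^ j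

lemma sum_filter_card (I : Finset ℕ) (m : ℕ) (G : ℕ → ℝ) :
    ∑ T ∈ I.powerset with T.card ≤ m, G T.card = ∑ j ∈ range (m + 1), (I.card.choose j : ℝ) * G j := by
  classical
  rw [sum_filter, sum_powerset_apply_card (fun j => if j ≤ m then G j else 0)]
  have h1 : ∀ k : ℕ, ∑ j ∈ range (k + (m + 1)), (I.card.choose j : ℝ) * (if j ≤ m then G j else 0) =
      ∑ j ∈ range (m + 1), (I.card.choose j : ℝ) * G j := by
    intro k
    induction k with
    | zero =>
      rw [zero_add]
      refine sum_congr rfl fun j hj => ?_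
      rw [if_pos (by rw [mem_range] at hj; omega)]
    | succ k ih =>
      rw [show k + 1 + (m + 1) = (k + (m + 1)) + 1 by ring, sum_range_succ, ih, if_neg (by omega)]
      simp
  have h2 : ∀ k : ℕ, ∑ j ∈ range (I.card + 1 + k),
      (I.card.choose j : ℝ) * (if j ≤ m then G j else 0) =
      ∑ j ∈ range (I.card + 1), I.card.choose j • (if j ≤ m then G j else 0) := by
    intro k
    induction k with
    | zero =>
      rw [add_zero]
      refine sum_congr rfl fun j _ => ?_
      rw [nsmul_eq_mul]
    | succ k ih =>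
      rw [← add_assoc, sum_range_succ, ih, Nat.choose_eq_zero_of_lt (by omega)]
      simp
  rw [← h1 (I.card + 1), ← h2 (m + 1)]

end Q167.LI
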