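import Pool.Agent.Q167.LI.B

/-! # The key inequality -/

set_option autoImplicit false

namespace Q167.LI

open Finset Q198.CI Polynomial

lemma choose_step {N m j : ℕ} (hm : m ≤ N) (hj : j + 1 ≤ m) :
    (N.choose j : ℝ) ≤ (m : ℝ) / (N - m + 1) * (N.choose (j + 1) : ℝ) := by
  have h1 : ((N.choose (j + 1) : ℕ) : ℝ) * (j + 1) = (N.choose j : ℝ) * ((N : ℝ) - j) := by
    have := Nat.choose_succ_right_eq N j
    have h2 : ((N.choose (j + 1) * (j + 1) : ℕ) : ℝ) = ((N.choose j * (N - j) : ℕ) : ℝ) := by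
      rw [this]
    push_cast [Nat.cast_sub (by omega : j ≤ N)] at h2
    exact h2
  have hjm : (j : ℝ) + 1 ≤ m := by exact_mod_cast hj
  have hmN : (m : ℝ) ≤ N := by exact_mod_cast hm
  have hC : (0:ℝ) ≤ (N.choose j : ℝ) := Nat.cast_nonneg _
  have hC' : (0:ℝ) ≤ (N.choose (j + 1) : ℝ) := Nat.cast_nonneg _
  rw [div_mul_eq_mul_div, le_div_iff₀ (by linarith)]
  calc (N.choose j : ℝ) * (N - m + 1) ≤ (N.choose j : ℝ) * ((N : ℝ) - j) :=
        mul_le_mul_of_nonneg_left (by linarith) hC
    _ = (N.choose (j + 1) : ℝ) * (j + 1) := h1.symm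
    _ ≤ (N.choose (j + 1) : ℝ) * m := mul_le_mul_of_nonneg_left hjm hC'
    _ = _ := mul_comm _ _

theorem key {N m : ℕ} (hm : m ≤ N) {p θ : ℝ} (hp0 : 0 < p) (hp1 : p < 1) (hθ : 0 ≤ θ)
    (hθ2 : (1 - 2 * p) ^ 2 * m ≤ θ ^ 2 * (p * (1 - p) * (N - m + 1)))
    (g : ℝ[X]) (hg : g.natDegree ≤ m) :
    ∃ A : ℝ, 0 ≤ A ∧ (1 - θ - m / (N - m + 1)) * A ≤
        ∑ x ∈ range (N + 1), (N.choose x : ℝ) * p ^ x * (1 - p) ^ (N - x) *
          (g.eval (x:ℝ) * g.eval ((x:ℝ) + 1)) ∧
      (g.eval 0) ^ 2 ≤ (1 + m / (N - m + 1)) * KK (N + 1) m (p / (1 - p)) * A := by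
  classical
  have hq : 0 < 1 - p := by linarith
  set s : ℝ := Real.sqrt (p * (1 - p)) with hs
  have hs2 : s ^ 2 = p * (1 - p) := Real.sq_sqrt (by positivity)
  have hs0 : 0 < s := Real.sqrt_pos.2 (by positivity)
  have hsne : s ≠ 0 := hs0.ne'
  set u : ℝ := (1 - p) / s with hu
  set z : ℝ := - p / s with hz
  have h1 : p + s * u = 1 := by rw [hu]; field_simp; ring
  have h0 : p + s * z = 0 := by rw [hz]; field_simp; ring
  obtain ⟨c, hc, hexp⟩ := expand g hg h1 h0 (insert N (range N))
  have hN : N ∉ range N := by simp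
  have e1 : ∀ S ∈ (range N).powerset, g.eval (S.card : ℝ) =
      ∑ R ∈ (range N).powerset, (c R.card + z * c (R.card + 1)) *
        ∏ i ∈ R, (if i ∈ S then u else z) := by
    intro S hS
    rw [mem_powerset] at hS
    have hNS : N ∉ S := fun h => hN (hS h)
    rw [hexp S (hS.trans (subset_insert _ _)), sum_powerset_insert hN, ← sum_add_distrib]
    refine sum_congr rfl fun R hR => ?_
    have hNR : N ∉ R := fun h => hN (mem_powerset.1 hR h)
    rw [card_insert_of_notMem hNR, W_insert_T hNR, if_neg hNS]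
    unfold W
    ring
  have e2 : ∀ S ∈ (range N).powerset, g.eval ((S.card : ℝ) + 1) =
      ∑ R ∈ (range N).powerset, (c R.card + u * c (R.card + 1)) *
        ∏ i ∈ R, (if i ∈ S then u else z) := by
    intro S hS
    rw [mem_powerset] at hS
    have hNS : N ∉ S := fun h => hN (hS h)
    have h3 := hexp (insert N S) (insert_subset_insert _ hS)
    rw [card_insert_of_notMem hNS] at h3
    push_cast at h3
    rw [h3, sum_powerset_insert hN, ← sum_add_distrib]
    refine sum_congr rfl fun R hR => ?_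
    have hNR : N ∉ R := fun h => hN (mem_powerset.1 hR h)
    rw [card_insert_of_notMem hNR, W_insert_T hNR, if_pos (mem_insert_self _ _),
      W_insert_S hNR]
    unfold W
    ring
  set v : Finset ℕ → ℝ := fun S => (∏ n ∈ S, p) * ∏ n ∈ (range N) \ S, (1 - p) with hv
  have hvl : IsLaw (range N) (2 * N) (fun _ => p) v :=
    law_prod (range N) (fun _ => hp0.le) (fun _ => hp1.le) (2 * N)
  have hpar := parseval hvl (F := (range N).powerset) (fun T hT => mem_powerset.1 hT)
    (fun T hT T' hT' => by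
      have a1 := card_le_card (mem_powerset.1 hT)
      have a2 := card_le_card (mem_powerset.1 hT')
      rw [card_range] at a1 a2
      omega) (fun _ => z) (fun _ => u) (fun i _ => by rw [hu, hz]; field_simp; ring)
    (fun R => c R.card + z * c (R.card + 1)) (fun R => c R.card + u * c (R.card + 1))
  have huz : u * z = -1 := by
    rw [hu, hz, div_mul_div_comm, ← pow_two, hs2]
    field_simp
  have hsum : p * u ^ 2 + (1 - p) * z ^ 2 = 1 := by
    rw [hu, hz, div_pow, div_pow, hs2]
    field_simp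
    ring
  have huz2 : (u + z) ^ 2 = (1 - 2 * p) ^ 2 / (p * (1 - p)) := by
    rw [hu, hz, ← add_div, div_pow, hs2]
    ring
  have hz2 : z ^ 2 = p / (1 - p) := by
    rw [hz, div_pow, hs2]
    field_simp
  -- the quadratic form
  set A : ℝ := ∑ R ∈ (range N).powerset, c R.card ^ 2 with hA
  set B : ℝ := ∑ R ∈ (range N).powerset, c (R.card + 1) ^ 2 with hB
  set D : ℝ := ∑ R ∈ (range N).powerset, c R.card * c (R.card + 1) with hD
  have hform : ∑ x ∈ range (N + 1), (N.choose x : ℝ) * p ^ x * (1 - p) ^ (N - x) *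
          (g.eval (x:ℝ) * g.eval ((x:ℝ) + 1)) = A + (u + z) * D - B := by
    have h2 : ∑ S ∈ (range N).powerset, v S * (g.eval (S.card : ℝ) * g.eval ((S.card : ℝ) + 1)) =
        ∑ x ∈ range (N + 1), (N.choose x : ℝ) * p ^ x * (1 - p) ^ (N - x) *
          (g.eval (x:ℝ) * g.eval ((x:ℝ) + 1)) := by
      have h3 : ∀ S ∈ (range N).powerset, v S * (g.eval (S.card : ℝ) * g.eval ((S.card : ℝ) + 1)) =
          (fun x : ℕ => p ^ x * (1 - p) ^ (N - x) * (g.eval (x:ℝ) * g.eval ((x:ℝ) + 1))) S.card := by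
        intro S hS
        rw [mem_powerset] at hS
        simp only [hv]
        rw [prod_const, prod_const, card_sdiff_of_subset hS, card_range]
      rw [sum_congr rfl h3, sum_powerset_apply_card
        (fun x : ℕ => p ^ x * (1 - p) ^ (N - x) * (g.eval (x:ℝ) * g.eval ((x:ℝ) + 1))), card_range]
      refine sum_congr rfl fun x _ => ?_
      rw [nsmul_eq_mul]
      ring
    rw [← h2]
    have h4 : ∀ S ∈ (range N).powerset, v S * (g.eval (S.card : ℝ) * g.eval ((S.card : ℝ) + 1)) =
        v S * ((∑ R ∈ (range N).powerset, (c R.card + z * c (R.card + 1)) *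
        ∏ i ∈ R, (if i ∈ S then u else z)) * ∑ R ∈ (range N).powerset,
        (c R.card + u * c (R.card + 1)) * ∏ i ∈ R, (if i ∈ S then u else z)) := by
      intro S hS
      rw [← e1 S hS, ← e2 S hS]
    rw [sum_congr rfl h4, hpar, hA, hB, hD, mul_sum, ← sum_add_distrib, ← sum_sub_distrib]
    refine sum_congr rfl fun R _ => ?_
    rw [hsum, prod_const_one]
    linear_combination c (R.card + 1) ^ 2 * huz
  have hA0 : 0 ≤ A := sum_nonneg fun R _ => sq_nonneg _
  have hmN : (m : ℝ) ≤ N := by exact_mod_cast hm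
  have hden : (0:ℝ) < N - m + 1 := by linarith
  set η : ℝ := (m : ℝ) / (N - m + 1) with hη
  have hη0 : 0 ≤ η := by positivity
  have hAr : A = ∑ j ∈ range (N + 1), (N.choose j : ℝ) * c j ^ 2 := by
    rw [hA, sum_powerset_apply_card (fun j => c j ^ 2), card_range]
    exact sum_congr rfl fun j _ => by rw [nsmul_eq_mul]
  have hBr : B = ∑ j ∈ range (N + 1), (N.choose j : ℝ) * c (j + 1) ^ 2 := by
    rw [hB, sum_powerset_apply_card (fun j => c (j + 1) ^ 2), card_range]
    exact sum_congr rfl fun j _ => by rw [nsmul_eq_mul]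
  have hBA : B ≤ η * A := by
    have h2 : B ≤ η * ∑ j ∈ range (N + 1), (N.choose (j + 1) : ℝ) * c (j + 1) ^ 2 := by
      rw [hBr, mul_sum]
      refine sum_le_sum fun j _ => ?_
      by_cases hj : j + 1 ≤ m
      · have := mul_le_mul_of_nonneg_right (choose_step hm hj) (sq_nonneg (c (j + 1)))
        rw [← hη] at this
        linarith
      · rw [hc (j + 1) (by omega)]
        simp
    refine h2.trans (mul_le_mul_of_nonneg_left ?_ hη0)
    have h3 := sum_range_succ' (fun j => (N.choose j : ℝ) * c j ^ 2) (N + 1)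
    have h4 := sum_range_succ (fun j => (N.choose j : ℝ) * c j ^ 2) (N + 1)
    rw [Nat.choose_eq_zero_of_lt (by omega : N < N + 1)] at h4
    rw [hAr]
    have h5 : (0:ℝ) ≤ (N.choose 0 : ℝ) * c 0 ^ 2 := by positivity
    simp only [Nat.cast_zero, zero_mul, add_zero] at h4
    linarith
  have hB0 : 0 ≤ B := sum_nonneg fun R _ => sq_nonneg _
  have hDle : |(u + z) * D| ≤ θ * A := by
    apply abs_le_of_sq_le_sq _ (by positivity)
    have h2 : D ^ 2 ≤ A * B := by
      rw [hD, hA, hB]
      exact sum_mul_sq_le_sq_mul_sq _ _ _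
    have h3 : D ^ 2 ≤ η * A ^ 2 := by
      have : A * B ≤ A * (η * A) := mul_le_mul_of_nonneg_left hBA hA0
      linarith [this, h2]
    have h4 : (u + z) ^ 2 * η ≤ θ ^ 2 := by
      rw [huz2, hη, div_mul_div_comm, div_le_iff₀ (by positivity)]
      exact hθ2
    calc ((u + z) * D) ^ 2 = (u + z) ^ 2 * D ^ 2 := by ring
      _ ≤ (u + z) ^ 2 * (η * A ^ 2) := mul_le_mul_of_nonneg_left h3 (sq_nonneg _)
      _ = ((u + z) ^ 2 * η) * A ^ 2 := by ring
      _ ≤ θ ^ 2 * A ^ 2 := mul_le_mul_of_nonneg_right h4 (sq_nonneg _)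
      _ = (θ * A) ^ 2 := by ring
  refine ⟨A, hA0, ?_, ?_⟩
  · rw [hform]
    have := (abs_le.1 hDle).1
    nlinarith
  · have hg0 : g.eval 0 = ∑ R ∈ (insert N (range N)).powerset with R.card ≤ m,
        c R.card * z ^ R.card := by
      have h2 := hexp ∅ (empty_subset _)
      rw [card_empty, Nat.cast_zero] at h2
      rw [h2, sum_filter]
      refine sum_congr rfl fun R _ => ?_
      rw [W_empty]
      split_ifs with h
      · rfl
      · rw [hc _ (by omega), zero_mul]
    have h5 : ∑ R ∈ (insert N (range N)).powerset with R.card ≤ m, (z ^ R.card) ^ 2 =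
        KK (N + 1) m (p / (1 - p)) := by
      have := sum_filter_card (insert N (range N)) m (fun j => (z ^ j) ^ 2)
      rw [this, card_insert_of_notMem hN, card_range]
      unfold KK
      refine sum_congr rfl fun j _ => ?_
      rw [← hz2]
      ring_nf
    have h6 : ∑ R ∈ (insert N (range N)).powerset with R.card ≤ m, c R.card ^ 2 ≤ A + B := by
      refine (sum_le_sum_of_subset_of_nonneg (filter_subset _ _)
        (fun R _ _ => sq_nonneg _)).trans (le_of_eq ?_)
      rw [sum_powerset_insert hN, hA, hB]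
      congr 1
      refine sum_congr rfl fun R hR => ?_
      have hNR : N ∉ R := fun h => hN (mem_powerset.1 hR h)
      rw [card_insert_of_notMem hNR]
    have h7 : 0 ≤ KK (N + 1) m (p / (1 - p)) := by
      rw [← h5]
      exact sum_nonneg fun R _ => sq_nonneg _
    calc (g.eval 0) ^ 2 ≤ (∑ R ∈ (insert N (range N)).powerset with R.card ≤ m, c R.card ^ 2) *
          ∑ R ∈ (insert N (range N)).powerset with R.card ≤ m, (z ^ R.card) ^ 2 := by
          rw [hg0]
          exact sum_mul_sq_le_sq_mul_sq _ _ _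
      _ ≤ (A + B) * KK (N + 1) m (p / (1 - p)) := by
          rw [h5]
          exact mul_le_mul_of_nonneg_right h6 h7
      _ ≤ ((1 + η) * A) * KK (N + 1) m (p / (1 - p)) := by
          apply mul_le_mul_of_nonneg_right _ h7
          linarith
      _ = _ := by ring

end Q167.LI
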