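import Pool.Agent.Q167.LI.C

/-! # Reduction to polynomials whose zeros come in adjacent pairs -/

set_option autoImplicit false

namespace Q167.LI

open Finset Polynomial

lemma prod_neg_odd {Z : Finset ℕ} {x : ℝ} (h : ∀ z ∈ Z, x < z) (hodd : Odd Z.card) :
    ∏ z ∈ Z, (x - (z : ℝ)) < 0 := by
  have h1 : ∏ z ∈ Z, (x - (z : ℝ)) = (-1) ^ Z.card * ∏ z ∈ Z, ((z : ℝ) - x) := by
    rw [← prod_const, ← prod_mul_distrib]
    refine prod_congr rfl fun z _ => ?_
    ring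
  rw [h1, hodd.neg_one_pow]
  have : 0 < ∏ z ∈ Z, ((z : ℝ) - x) := prod_pos fun z hz => by linarith [h z hz]
  linarith

lemma prod_neg_even {Z : Finset ℕ} {x : ℝ} (h : ∀ z ∈ Z, x < z) (heven : Even Z.card) :
    0 < ∏ z ∈ Z, (x - (z : ℝ)) := by
  have h1 : ∏ z ∈ Z, (x - (z : ℝ)) = (-1) ^ Z.card * ∏ z ∈ Z, ((z : ℝ) - x) := by
    rw [← prod_const, ← prod_mul_distrib]
    refine prod_congr rfl fun z _ => ?_
    ring
  rw [h1, heven.neg_one_pow, one_mul]
  exact prod_pos fun z hz => by linarith [h z hz]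

/-- zeros of a nonnegative product come in adjacent pairs -/
lemma pairing (N : ℕ) : ∀ (m : ℕ) (Z : Finset ℕ), Z ⊆ range (N + 1) → Z.card = 2 * m →
    (∀ x : ℕ, x ≤ N → 0 ≤ ∏ z ∈ Z, ((x : ℝ) - (z : ℝ))) →
    ∃ A : Finset ℕ, A ⊆ Z ∧ A.card = m ∧
      ∏ z ∈ Z, (X - C (z : ℝ)) = ∏ a ∈ A, ((X - C (a : ℝ)) * (X - C ((a : ℝ) + 1))) := by
  intro m
  induction m with
  | zero =>
    intro Z _ hZ _
    have : Z = ∅ := card_eq_zero.1 (by omega)
    subst this
    exact ⟨∅, subset_rfl, rfl, by simp⟩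
  | succ m ih =>
    intro Z hZN hZ hpos
    have hne : Z.Nonempty := card_pos.1 (by omega)
    obtain ⟨z₀, hz₀, hmin⟩ : ∃ z₀ ∈ Z, ∀ z ∈ Z, z₀ ≤ z :=
      ⟨Z.min' hne, Z.min'_mem hne, fun z hz => Z.min'_le z hz⟩
    have hcard1 : (Z.erase z₀).card = 2 * m + 1 := by
      rw [card_erase_of_mem hz₀]
      omega
    have hlt : ∀ z ∈ Z.erase z₀, z₀ < z := by
      intro z hz
      rw [mem_erase] at hz
      exact lt_of_le_of_ne (hmin z hz.2) (fun h => hz.1 h.symm)
    have hz₀N : z₀ + 1 ≤ N := by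
      obtain ⟨z, hz⟩ : (Z.erase z₀).Nonempty := card_pos.1 (by omega)
      have h1 := hlt z hz
      have h2 := mem_range.1 (hZN (mem_erase.1 hz).2)
      omega
    have hmem : z₀ + 1 ∈ Z := by
      by_contra hnot
      have h1 := hpos (z₀ + 1) hz₀N
      rw [← mul_prod_erase Z _ hz₀] at h1
      have h2 : ∏ z ∈ Z.erase z₀, (((z₀ + 1 : ℕ) : ℝ) - (z : ℝ)) < 0 := by
        apply prod_neg_odd
        · intro z hz
          have h3 := hlt z hz
          have h4 : z ≠ z₀ + 1 := fun h => hnot (h ▸ (mem_erase.1 hz).2)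
          exact_mod_cast (by omega : z₀ + 1 < z)
        · rw [hcard1]
          exact ⟨m, rfl⟩
      push_cast at h1 h2
      nlinarith
    set Z' : Finset ℕ := (Z.erase z₀).erase (z₀ + 1) with hZ'
    have hmem' : z₀ + 1 ∈ Z.erase z₀ := mem_erase.2 ⟨by omega, hmem⟩
    have hcard' : Z'.card = 2 * m := by
      rw [hZ', card_erase_of_mem hmem', hcard1]
      omega
    have hlt' : ∀ z ∈ Z', z₀ + 1 < z := by
      intro z hz
      rw [hZ', mem_erase] at hz
      have := hlt z hz.2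
      omega
    have hsub : Z' ⊆ Z := (erase_subset _ _).trans (erase_subset _ _)
    have hprod : ∀ x : ℝ, ∏ z ∈ Z, (x - (z : ℝ)) =
        (x - z₀) * ((x - (z₀ + 1)) * ∏ z ∈ Z', (x - (z : ℝ))) := by
      intro x
      rw [← mul_prod_erase Z _ hz₀, ← mul_prod_erase (Z.erase z₀) _ hmem']
      push_cast
      rfl
    obtain ⟨A', hA'Z, hA'c, hA'⟩ := ih Z' (hsub.trans hZN) hcard' (by
      intro x hx
      by_cases hx1 : x ≤ z₀ + 1
      · apply le_of_lt
        apply prod_neg_even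
        · intro z hz
          have := hlt' z hz
          exact_mod_cast (by omega : x < z)
        · rw [hcard']
          exact even_two_mul m
      · push Not at hx1
        have h1 := hpos x hx
        rw [hprod] at h1
        have h2 : (z₀ : ℝ) + 1 < x := by exact_mod_cast hx1
        rw [← mul_assoc] at h1
        exact nonneg_of_mul_nonneg_right h1 (by nlinarith))
    have hz₀A : z₀ ∉ A' := fun h => by
      have := hlt' z₀ (hA'Z h)
      omega
    refine ⟨insert z₀ A', insert_subset hz₀ (hA'Z.trans hsub), ?_, ?_⟩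
    · rw [card_insert_of_notMem hz₀A, hA'c]
    · rw [prod_insert hz₀A, ← hA', ← mul_prod_erase Z _ hz₀, ← mul_prod_erase (Z.erase z₀) _ hmem']
      push_cast
      ring

/-- moving in a direction until a new zero appears -/
lemma move {N : ℕ} {f h : ℝ[X]} (hf : ∀ x : ℕ, x ≤ N → 0 ≤ f.eval (x : ℝ))
    (hh : ∀ x : ℕ, x ≤ N → f.eval (x : ℝ) = 0 → h.eval (x : ℝ) = 0)
    (hneg : ∃ x : ℕ, x ≤ N ∧ h.eval (x : ℝ) < 0) :
    ∃ t : ℝ, 0 < t ∧ (∀ x : ℕ, x ≤ N → 0 ≤ (f + C t * h).eval (x : ℝ)) ∧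
      ((range (N + 1)).filter (fun x : ℕ => (f + C t * h).eval (x : ℝ) ≠ 0)).card <
      ((range (N + 1)).filter (fun x : ℕ => f.eval (x : ℝ) ≠ 0)).card := by
  classical
  obtain ⟨x₂, hx₂, hx₂n⟩ := hneg
  set T : Finset ℕ := (range (N + 1)).filter (fun x : ℕ => h.eval (x : ℝ) < 0) with hT
  have hTne : T.Nonempty := ⟨x₂, mem_filter.2 ⟨mem_range.2 (by omega), hx₂n⟩⟩
  obtain ⟨y, hyT, hymin⟩ := T.exists_min_image
    (fun x : ℕ => f.eval (x : ℝ) / (-(h.eval (x : ℝ)))) hTne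
  have hy := mem_filter.1 hyT
  have hyN : y ≤ N := by
    have := mem_range.1 hy.1
    omega
  have hfy : 0 < f.eval (y : ℝ) := by
    rcases (hf y hyN).lt_or_eq with h1 | h1
    · exact h1
    · exact absurd (hh y hyN h1.symm) hy.2.ne
  have hhy : 0 < -(h.eval (y : ℝ)) := by linarith [hy.2]
  have hev : ∀ (t : ℝ) (x : ℕ), (f + C t * h).eval (x : ℝ) = f.eval (x : ℝ) + t * h.eval (x : ℝ) := by
    intro t x
    simp
  refine ⟨f.eval (y : ℝ) / (-(h.eval (y : ℝ))), div_pos hfy hhy, ?_, ?_⟩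
  · intro x hx
    rw [hev]
    by_cases hx0 : 0 ≤ h.eval (x : ℝ)
    · have := mul_nonneg (div_pos hfy hhy).le hx0
      linarith [hf x hx]
    · push Not at hx0
      have h1 := hymin x (mem_filter.2 ⟨mem_range.2 (by omega), hx0⟩)
      rw [le_div_iff₀ (by linarith)] at h1
      linarith
  · apply card_lt_card
    rw [ssubset_iff_of_subset]
    · refine ⟨y, mem_filter.2 ⟨hy.1, hfy.ne'⟩, ?_⟩
      rw [mem_filter]
      rintro ⟨_, h1⟩
      apply h1
      have h3 : f.eval (y : ℝ) / (-(h.eval (y : ℝ))) * h.eval (y : ℝ) = - f.eval (y : ℝ) := by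
        rw [div_mul_eq_mul_div, div_eq_iff hhy.ne']
        ring
      rw [hev, h3]
      ring
    · intro x hx
      rw [mem_filter] at hx ⊢
      refine ⟨hx.1, fun h0 => hx.2 ?_⟩
      rw [hev, h0, hh x (by have := mem_range.1 hx.1; omega) h0]
      ring

/-- a direction -/
lemma direction {N m : ℕ} (hN : 2 * m ≤ N) {Z : Finset ℕ} (hZN : Z ⊆ range (N + 1))
    (hZ : Z.card < 2 * m) : ∃ h : ℝ[X], h.natDegree ≤ 2 * m ∧ (∀ z ∈ Z, h.eval (z : ℝ) = 0) ∧
      (∃ x : ℕ, x ≤ N ∧ h.eval (x : ℝ) < 0) ∧ ∃ x : ℕ, x ≤ N ∧ 0 < h.eval (x : ℝ) := by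
  classical
  have hcard : 2 ≤ (range (N + 1) \ Z).card := by
    rw [card_sdiff_of_subset hZN, card_range]
    omega
  obtain ⟨x₁, hx₁, x₂, hx₂, hne⟩ := one_lt_card.1 (show 1 < (range (N + 1) \ Z).card by omega)
  rw [mem_sdiff, mem_range] at hx₁ hx₂
  set G : ℝ[X] := ∏ z ∈ Z, (X - C (z : ℝ)) with hG
  have hGe : ∀ x : ℝ, G.eval x = ∏ z ∈ Z, (x - (z : ℝ)) := by
    intro x
    rw [hG, eval_prod]
    simp
  have hG0 : ∀ x : ℕ, x ∉ Z → G.eval (x : ℝ) ≠ 0 := by
    intro x hx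
    rw [hGe, prod_ne_zero_iff]
    intro z hz h
    apply hx
    have : (x : ℝ) = z := by linarith
    rw [Nat.cast_inj.1 this]
    exact hz
  have hGd : G.natDegree = Z.card := by
    rw [hG, natDegree_finsetProd_X_sub_C_eq_card]
  have h1 := hG0 x₁ hx₁.2
  have h2 := hG0 x₂ hx₂.2
  have hd : (x₁ : ℝ) - x₂ ≠ 0 := by
    intro h
    apply hne
    exact_mod_cast (by linarith : (x₁ : ℝ) = x₂)
  set v₁ : ℝ := 1 / G.eval (x₁ : ℝ) with hv₁
  set v₂ : ℝ := -1 / G.eval (x₂ : ℝ) with hv₂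
  set b : ℝ := (v₁ - v₂) / (x₁ - x₂) with hb
  refine ⟨G * (C (v₁ - b * x₁) + C b * X), ?_, ?_, ?_, ?_⟩
  · refine natDegree_mul_le.trans ?_
    have h3 : (C (v₁ - b * x₁) + C b * X : ℝ[X]).natDegree ≤ 1 := by
      rw [add_comm]
      exact natDegree_linear_le
    omega
  · intro z hz
    rw [eval_mul, hGe, prod_eq_zero hz (by ring), zero_mul]
  · refine ⟨x₂, by omega, ?_⟩
    have : (G * (C (v₁ - b * x₁) + C b * X)).eval (x₂ : ℝ) = -1 := by
      simp only [eval_mul, eval_add, eval_C, eval_X]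
      have : v₁ - b * x₁ + b * x₂ = v₂ := by
        rw [hb]
        field_simp
        ring
      rw [this, hv₂]
      field_simp
    rw [this]
    norm_num
  · refine ⟨x₁, by omega, ?_⟩
    have : (G * (C (v₁ - b * x₁) + C b * X)).eval (x₁ : ℝ) = 1 := by
      simp only [eval_mul, eval_add, eval_C, eval_X]
      rw [sub_add_cancel, hv₁]
      field_simp
    rw [this]
    norm_num

end Q167.LI
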