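import Pool.Agent.Q167.LI.E
import Pool.Agent.Q198.CI.Glue

/-! # Windows at many scales: almost sure statements -/

set_option autoImplicit false

namespace Q167.LI

open Finset MeasureTheory Filter Topology Q198.CI

/-- a model with almost surely infinitely many empty windows in every class of scales -/
theorem scale_model {W : ℕ → ℕ → Finset ℕ} {cnt κ K : ℕ → ℕ} {p δ : ℕ → ℝ}
    (hdisj : ∀ i k i' k' n, k < cnt i → k' < cnt i' → n ∈ W i k → n ∈ W i' k' → i = i' ∧ k = k')
    (hp : ∀ n, 0 ≤ p n) (hp1 : ∀ n, p n ≤ 1)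
    (hκ : ∀ i k n, k < cnt i → n ∈ W i k → κ n ≤ K i)
    (hδ0 : ∀ i, 0 ≤ δ i)
    (hlaw : ∀ i k, k < cnt i → ∃ w : Finset ℕ → ℝ, IsLaw (W i k) (K i) p w ∧ δ i ≤ w ∅)
    (S : ℕ → Set ℕ) (hdiv : ∀ c, ¬ Summable (Set.indicator (S c) fun i => (cnt i : ℝ) * δ i)) :
    ∃ (Ω : Type) (_ : MeasurableSpace Ω) (P : Measure Ω) (_ : IsProbabilityMeasure P)
      (E : ℕ → Set Ω), (∀ n, MeasurableSet (E n)) ∧
      (∀ T : Finset ℕ, (∀ n ∈ T, T.card ≤ κ n) →
        P (⋂ n ∈ T, E n) = ENNReal.ofReal (∏ n ∈ T, p n)) ∧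
      ∀ᵐ ω ∂P, ∀ c i₀ : ℕ, ∃ i, i₀ ≤ i ∧ i ∈ S c ∧ ∃ k, k < cnt i ∧ ∀ n ∈ W i k, ω ∉ E n := by
  classical
  set good : ℕ → ℕ × ℕ → Prop := fun n ik => ik.2 < cnt ik.1 ∧ n ∈ W ik.1 ik.2 with hgood
  have huniq : ∀ n ik ik', good n ik → good n ik' → ik = ik' := by
    intro n ik ik' h1 h2
    have := hdisj ik.1 ik.2 ik'.1 ik'.2 n h1.1 h2.1 h1.2 h2.2
    exact Prod.ext this.1 this.2
  set b : ℕ → (ℕ × ℕ) ⊕ ℕ := fun n => if h : ∃ ik, good n ik then Sum.inl h.choose else Sum.inr n
    with hb
  set I : (ℕ × ℕ) ⊕ ℕ → Finset ℕ := fun β => match β with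
    | Sum.inl ik => if ik.2 < cnt ik.1 then W ik.1 ik.2 else ∅
    | Sum.inr n => if ∃ ik, good n ik then ∅ else {n} with hI
  have hbI : ∀ n β, n ∈ I β ↔ b n = β := by
    intro n β
    rcases β with ik | n'
    · simp only [hI, hb]
      constructor
      · intro h
        split_ifs at h with h1
        · have hg : good n ik := ⟨h1, h⟩
          have hex : ∃ ik, good n ik := ⟨ik, hg⟩
          rw [dif_pos hex]
          exact congrArg Sum.inl (huniq n _ _ hex.choose_spec hg)
        · simp at h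
      · intro h
        split_ifs at h with h1
        · have h2 := h1.choose_spec
          have h3 : h1.choose = ik := Sum.inl_injective h
          rw [h3] at h2
          rw [if_pos h2.1]
          exact h2.2
    · simp only [hI, hb]
      constructor
      · intro h
        split_ifs at h with h1
        · simp at h
        · rw [mem_singleton] at h
          subst h
          rw [dif_neg h1]
      · intro h
        split_ifs at h with h1
        have h3 : n = n' := Sum.inr_injective h
        subst h3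
        rw [if_neg h1, mem_singleton]
  set K' : (ℕ × ℕ) ⊕ ℕ → ℕ := fun β => match β with
    | Sum.inl ik => K ik.1
    | Sum.inr n => κ n with hK'
  have hex : ∀ β, ∃ w : Finset ℕ → ℝ, IsLaw (I β) (K' β) p w ∧
      ∀ i k, β = Sum.inl (i, k) → k < cnt i → δ i ≤ w ∅ := by
    intro β
    rcases β with ⟨i, k⟩ | n
    · by_cases hk : k < cnt i
      · obtain ⟨w, hw1, hw2⟩ := hlaw i k hk
        refine ⟨w, ?_, ?_⟩
        · simp only [hI, hK', if_pos hk]
          exact hw1
        · intro i' k' h _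
          have h1 := Sum.inl_injective h
          have h2 : i = i' := congrArg Prod.fst h1
          rw [← h2]
          exact hw2
      · refine ⟨_, law_prod _ hp hp1 _, ?_⟩
        intro i' k' h hk'
        have h1 := Sum.inl_injective h
        have h2 : i = i' := congrArg Prod.fst h1
        have h3 : k = k' := congrArg Prod.snd h1
        subst h2 h3
        exact absurd hk' hk
    · refine ⟨_, law_prod _ hp hp1 _, ?_⟩
      intro i' k' h _
      cases h
  choose w hw1 hw2 using hex
  obtain ⟨P, hP, E, F, hE, hF, hT, hFE, hs⟩ := glue b I hbI K' hp w hw1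
  refine ⟨_, inferInstance, P, hP, E, hE, ?_, ?_⟩
  · intro T hT'
    apply hT
    intro n hn
    refine (hT' n hn).trans ?_
    simp only [hb, hK']
    by_cases h1 : ∃ ik, good n ik
    · rw [dif_pos h1]
      exact hκ _ _ n h1.choose_spec.1 h1.choose_spec.2
    · rw [dif_neg h1]
  · -- Borel Cantelli
    set G : ℕ → Set (((ℕ × ℕ) ⊕ ℕ) → Finset ℕ) := fun i =>
      ⋃ k ∈ range (cnt i), F (Sum.inl (i, k)) with hG
    have hprob : ∀ s : Finset ℕ, P (⋂ i ∈ s, (G i)ᶜ) ≤
        ENNReal.ofReal (Real.exp (-∑ i ∈ s, (cnt i : ℝ) * δ i)) := by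
      intro s
      have e1 : (⋂ i ∈ s, (G i)ᶜ) =
          ⋂ β ∈ (s.sigma (fun i => range (cnt i))).image
            (fun x : (_ : ℕ) × ℕ => (Sum.inl (x.1, x.2) : (ℕ × ℕ) ⊕ ℕ)), (F β)ᶜ := by
        ext ω
        simp only [hG, Set.mem_iInter, Set.mem_compl_iff, Set.mem_iUnion, not_exists, mem_sigma,
          mem_image]
        constructor
        · rintro h1 _ ⟨⟨i, j⟩, ⟨h2, h3⟩, rfl⟩
          exact h1 i h2 j h3
        · intro h1 i h2 j h3
          exact h1 (Sum.inl (i, j)) ⟨⟨i, j⟩, ⟨h2, h3⟩, rfl⟩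
      rw [e1, hs, prod_image]
      · rw [prod_sigma]
        have h1 : ∀ i ∈ s, ∏ k ∈ range (cnt i), ENNReal.ofReal (1 - w (Sum.inl (i, k)) ∅) ≤
            ENNReal.ofReal (Real.exp (-((cnt i : ℝ) * δ i))) := by
          intro i _
          have h2 : ∏ k ∈ range (cnt i), ENNReal.ofReal (1 - w (Sum.inl (i, k)) ∅) ≤
              ∏ k ∈ range (cnt i), ENNReal.ofReal (Real.exp (-δ i)) := by
            refine prod_le_prod' fun k hk => ENNReal.ofReal_le_ofReal ?_
            have h3 := hw2 (Sum.inl (i, k)) i k rfl (mem_range.1 hk)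
            have h4 := Real.add_one_le_exp (-δ i)
            linarith
          refine h2.trans ?_
          rw [prod_const, card_range, ← ENNReal.ofReal_pow (Real.exp_pos _).le, ← Real.exp_nat_mul]
          apply le_of_eq
          congr 2
          ring
        refine (prod_le_prod' h1).trans ?_
        rw [← ENNReal.ofReal_prod_of_nonneg (fun i _ => (Real.exp_pos _).le), ← Real.exp_sum,
          sum_neg_distrib]
      · rintro ⟨i, j⟩ _ ⟨i', j'⟩ _ heq
        simp only [Sum.inl.injEq, Prod.mk.injEq] at heq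
        obtain ⟨rfl, rfl⟩ := heq
        rfl
    have hzero : ∀ c i₀ : ℕ, P (⋂ i ∈ {i | i₀ ≤ i ∧ i ∈ S c}, (G i)ᶜ) = 0 := by
      intro c i₀
      set f : ℕ → ℝ := Set.indicator (S c) fun i => (cnt i : ℝ) * δ i with hf
      have hf0 : ∀ i, 0 ≤ f i := fun i => by
        rw [hf]
        exact Set.indicator_nonneg (fun j _ => mul_nonneg (Nat.cast_nonneg _) (hδ0 j)) i
      have htend := (not_summable_iff_tendsto_nat_atTop_of_nonneg hf0).1 (hdiv c)
      have hle : ∀ M : ℝ, P (⋂ i ∈ {i | i₀ ≤ i ∧ i ∈ S c}, (G i)ᶜ) ≤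
          ENNReal.ofReal (Real.exp (-M)) := by
        intro M
        obtain ⟨n, hn⟩ := (htend.eventually_ge_atTop (M + ∑ i ∈ range i₀, f i)).exists
        set s : Finset ℕ := (range n).filter (fun i => i₀ ≤ i ∧ i ∈ S c) with hs'
        have h1 : M ≤ ∑ i ∈ s, (cnt i : ℝ) * δ i := by
          have h2 : ∑ i ∈ range n, f i ≤ ∑ i ∈ range i₀, f i + ∑ i ∈ s, f i := by
            have h3 : ∑ i ∈ range n, f i = ∑ i ∈ (range n).filter (fun i => i < i₀), f i +
                ∑ i ∈ (range n).filter (fun i => ¬ i < i₀), f i :=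
              (sum_filter_add_sum_filter_not _ _ _).symm
            rw [h3]
            apply add_le_add
            · apply sum_le_sum_of_subset_of_nonneg
              · intro i hi
                rw [mem_filter] at hi
                exact mem_range.2 hi.2
              · intro i _ _
                exact hf0 i
            · have h4 : ∑ i ∈ (range n).filter (fun i => ¬ i < i₀), f i = ∑ i ∈ s, f i := by
                symm
                apply sum_subset
                · intro i hi
                  rw [hs', mem_filter] at hi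
                  exact mem_filter.2 ⟨hi.1, by omega⟩
                · intro i hi hi'
                  rw [mem_filter] at hi
                  rw [hf]
                  apply Set.indicator_of_notMem
                  intro hiS
                  exact hi' (mem_filter.2 ⟨hi.1, by omega, hiS⟩)
              exact h4.le
          have h5 : ∑ i ∈ s, f i = ∑ i ∈ s, (cnt i : ℝ) * δ i := by
            refine sum_congr rfl fun i hi => ?_
            rw [hs', mem_filter] at hi
            rw [hf, Set.indicator_of_mem hi.2.2]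
          rw [← h5]
          linarith
        calc P (⋂ i ∈ {i | i₀ ≤ i ∧ i ∈ S c}, (G i)ᶜ) ≤ P (⋂ i ∈ s, (G i)ᶜ) := by
              apply measure_mono
              intro ω hω
              simp only [Set.mem_iInter] at hω ⊢
              intro i hi
              rw [hs', mem_filter] at hi
              exact hω i hi.2
          _ ≤ ENNReal.ofReal (Real.exp (-∑ i ∈ s, (cnt i : ℝ) * δ i)) := hprob s
          _ ≤ ENNReal.ofReal (Real.exp (-M)) :=
              ENNReal.ofReal_le_ofReal (Real.exp_le_exp.2 (by linarith))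
      have hlim : Tendsto (fun M : ℝ => ENNReal.ofReal (Real.exp (-M))) atTop (𝓝 0) := by
        have h1 : Tendsto (fun M : ℝ => Real.exp (-M)) atTop (𝓝 0) :=
          Real.tendsto_exp_neg_atTop_nhds_zero
        have h2 := ENNReal.tendsto_ofReal h1
        rwa [ENNReal.ofReal_zero] at h2
      exact le_antisymm (ge_of_tendsto' hlim hle) bot_le
    rw [ae_all_iff]
    intro c
    rw [ae_all_iff]
    intro i₀
    rw [ae_iff]
    refine measure_mono_null ?_ (hzero c i₀)
    intro ω hω
    simp only [Set.mem_ofPred_eq, not_exists, not_and] at hω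
    simp only [Set.mem_iInter]
    intro i hi hGi
    simp only [hG, Set.mem_iUnion] at hGi
    obtain ⟨k, hk, hωF⟩ := hGi
    have hk' := mem_range.1 hk
    refine hω i hi.1 hi.2 k hk' fun n hn => ?_
    apply hFE (Sum.inl (i, k)) ω hωF n
    simp only [hI, if_pos hk']
    exact hn

/-- the upper bound for one window in a measure space -/
theorem window_upper {Ω : Type*} [MeasurableSpace Ω] (P : Measure Ω) [IsProbabilityMeasure P]
    {E : ℕ → Set Ω} (hE : ∀ n, MeasurableSet (E n)) {I : Finset ℕ} {m : ℕ}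
    {p : ℕ → ℝ} (hp : ∀ n ∈ I, 0 ≤ p n) (hp1 : ∀ n ∈ I, p n < 1)
    (hT : ∀ T ⊆ I, T.card ≤ 2 * m → P (⋂ n ∈ T, E n) = ENNReal.ofReal (∏ n ∈ T, p n))
    {Kq : ℝ} (hK0 : 0 < Kq)
    (hK : Kq ≤ ∑ T ∈ I.powerset with T.card ≤ m, ∏ n ∈ T, (p n / (1 - p n))) :
    P (⋂ n ∈ I, (E n)ᶜ) ≤ ENNReal.ofReal (1 / Kq) := by
  classical
  set D : Finset ℕ → Set Ω := fun S => ⋂ n ∈ I, {ω | ω ∈ E n ↔ n ∈ S} with hD
  have hDm : ∀ S, MeasurableSet (D S) := by
    intro S
    refine Finset.measurableSet_biInter _ fun n _ => ?_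
    by_cases h : n ∈ S
    · have : {ω | ω ∈ E n ↔ n ∈ S} = E n := by
        ext ω
        simp [h]
      rw [this]
      exact hE n
    · have : {ω | ω ∈ E n ↔ n ∈ S} = (E n)ᶜ := by
        ext ω
        simp [h]
      rw [this]
      exact (hE n).compl
  have hmemD : ∀ S ω, ω ∈ D S ↔ ∀ n ∈ I, (ω ∈ E n ↔ n ∈ S) := by
    intro S ω
    simp only [hD, Set.mem_iInter, Set.mem_ofPred_eq]
  have hlaw : IsLaw I (2 * m) p (fun S => (P (D S)).toReal) := by
    constructor
    · intro S _
      exact ENNReal.toReal_nonneg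
    · intro T hTI hTc
      have h1 : (⋂ n ∈ T, E n) = ⋃ S ∈ Icc T I, D S := by
        ext ω
        simp only [Set.mem_iInter, Set.mem_iUnion, hmemD]
        constructor
        · intro h
          refine ⟨I.filter (fun n => ω ∈ E n), ?_, ?_⟩
          · rw [mem_Icc]
            refine ⟨fun n hn => mem_filter.2 ⟨hTI hn, h n hn⟩, filter_subset _ _⟩
          · intro n hn
            rw [mem_filter]
            exact ⟨fun h2 => ⟨hn, h2⟩, fun h2 => h2.2⟩
        · rintro ⟨S, hS, h⟩ n hn
          rw [mem_Icc] at hS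
          exact (h n (hTI hn)).2 (hS.1 hn)
      have h2 : P (⋂ n ∈ T, E n) = ∑ S ∈ Icc T I, P (D S) := by
        rw [h1, measure_biUnion_finset]
        · intro S hS S' hS' hne
          rw [Function.onFun, Set.disjoint_left]
          intro ω h3 h4
          rw [hmemD] at h3 h4
          apply hne
          ext n
          have hSI := (mem_Icc.1 (mem_coe.1 hS)).2
          have hSI' := (mem_Icc.1 (mem_coe.1 hS')).2
          constructor
          · intro h5
            exact (h4 n (hSI h5)).1 ((h3 n (hSI h5)).2 h5)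
          · intro h5
            exact (h3 n (hSI' h5)).1 ((h4 n (hSI' h5)).2 h5)
        · intro S _
          exact hDm S
      rw [← ENNReal.toReal_sum (fun S _ => measure_ne_top P _), ← h2, hT T hTI hTc,
        ENNReal.toReal_ofReal (prod_nonneg fun n hn => hp n (hTI hn))]
  have h3 := sharp_upper hp hp1 hlaw
  have h4 : (⋂ n ∈ I, (E n)ᶜ) = D ∅ := by
    ext ω
    simp only [Set.mem_iInter, Set.mem_compl_iff, hmemD, notMem_empty, iff_false]
  rw [h4, ← ENNReal.ofReal_toReal (measure_ne_top P (D ∅))]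
  apply ENNReal.ofReal_le_ofReal
  rw [le_div_iff₀ hK0]
  exact (mul_le_mul_of_nonneg_left hK ENNReal.toReal_nonneg).trans h3

/-- almost surely all windows of all large scales are nonempty -/
theorem scale_upper {Ω : Type*} [MeasurableSpace Ω] (P : Measure Ω) [IsProbabilityMeasure P]
    {E : ℕ → Set Ω} (hE : ∀ n, MeasurableSet (E n)) {W : ℕ → ℕ → Finset ℕ} {cnt m : ℕ → ℕ}
    {p : ℕ → ℝ} {Kq : ℕ → ℝ} {i₁ : ℕ}
    (hp : ∀ i k n, i₁ ≤ i → k < cnt i → n ∈ W i k → 0 ≤ p n ∧ p n < 1)
    (hT : ∀ i k, i₁ ≤ i → k < cnt i → ∀ T ⊆ W i k, T.card ≤ 2 * m i →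
      P (⋂ n ∈ T, E n) = ENNReal.ofReal (∏ n ∈ T, p n))
    (hK0 : ∀ i, i₁ ≤ i → 0 < Kq i)
    (hK : ∀ i k, i₁ ≤ i → k < cnt i →
      Kq i ≤ ∑ T ∈ (W i k).powerset with T.card ≤ m i, ∏ n ∈ T, (p n / (1 - p n)))
    {s : ℕ → ℝ} (hs : Summable s) (hle : ∀ i, i₁ ≤ i → (cnt i : ℝ) / Kq i ≤ s i) :
    ∀ᵐ ω ∂P, ∀ᶠ i : ℕ in atTop, ∀ k, k < cnt i → ∃ n ∈ W i k, ω ∈ E n := by
  classical
  set bad : ℕ → Set Ω := fun i => if i₁ ≤ i then ⋃ k ∈ range (cnt i), ⋂ n ∈ W i k, (E n)ᶜ else ∅
    with hbad
  have hbound : ∀ i, P (bad i) ≤ ENNReal.ofReal (s i) := by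
    intro i
    simp only [hbad]
    split_ifs with hi
    · refine (measure_biUnion_finset_le _ _).trans ?_
      have h1 : ∑ k ∈ range (cnt i), P (⋂ n ∈ W i k, (E n)ᶜ) ≤
          ∑ k ∈ range (cnt i), ENNReal.ofReal (1 / Kq i) := by
        refine sum_le_sum fun k hk => ?_
        have hk' := mem_range.1 hk
        exact window_upper P hE (fun n hn => (hp i k n hi hk' hn).1)
          (fun n hn => (hp i k n hi hk' hn).2) (hT i k hi hk') (hK0 i hi) (hK i k hi hk')
      refine h1.trans ?_
      rw [sum_const, card_range, nsmul_eq_mul]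
      have h2 : ((cnt i : ℕ) : ENNReal) = ENNReal.ofReal (cnt i : ℝ) :=
        (ENNReal.ofReal_natCast _).symm
      rw [h2, ← ENNReal.ofReal_mul (Nat.cast_nonneg _)]
      apply ENNReal.ofReal_le_ofReal
      rw [mul_one_div]
      exact hle i hi
    · simp
  have hsum : ∑' i, P (bad i) ≠ ⊤ :=
    ne_top_of_le_ne_top hs.tsum_ofReal_ne_top (ENNReal.tsum_le_tsum hbound)
  have hbc := ae_eventually_notMem hsum
  filter_upwards [hbc] with ω hω
  filter_upwards [hω, eventually_ge_atTop i₁] with i h1 h2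
  intro k hk
  by_contra hcon
  push Not at hcon
  apply h1
  simp only [hbad, if_pos h2, Set.mem_iUnion]
  refine ⟨k, mem_range.2 hk, ?_⟩
  simp only [Set.mem_iInter, Set.mem_compl_iff]
  exact hcon

end Q167.LI
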