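import Pool.Agent.Q167.LI.J

/-! # The sharp law of odd order -/

set_option autoImplicit false

namespace Q167.LI

open Finset Polynomial MeasureTheory Filter Topology Q198.CI

/-- a direction -/
lemma direction' {N K : ℕ} (hN : K ≤ N) {Z : Finset ℕ} (hZN : Z ⊆ range (N + 1))
    (hZ : Z.card < K) : ∃ h : ℝ[X], h.natDegree ≤ K ∧ (∀ z ∈ Z, h.eval (z : ℝ) = 0) ∧
      (∃ x : ℕ, x ≤ N ∧ h.eval (x : ℝ) < 0) ∧ ∃ x : ℕ, x ≤ N ∧ 0 < h.eval (x : ℝ) := by
  classical
  have hcard : 2 ≤ (range (N + 1) \ Z).card := by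
    rw [card_sdiff_of_subset hZN, card_range]
    omega
  obtain ⟨x₁, hx₁, x₂, hx₂, hne⟩ := one_lt_card.1 (show 1 < (range (N + 1) \ Z).card by omega)
  rw [Finset.mem_sdiff, mem_range] at hx₁ hx₂
  set G : ℝ[X] := ∏ z ∈ Z, (X - C (z : ℝ)) with hG
  have hGe : ∀ x : ℝ, G.eval x = ∏ z ∈ Z, (x - (z : ℝ)) := by
    intro x
    rw [hG, eval_prod]
    simp
  have hG0 : ∀ x : ℕ, x ∉ Z → G.eval (x : ℝ) ≠ 0 := by
    intro x hx
    rw [hGe, prod_ne_zero_iff]
    intro z hz h
    apply hx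
    have : (x : ℝ) = z := by linarith
    rw [Nat.cast_inj.1 this]
    exact hz
  have hGd : G.natDegree = Z.card := by
    rw [hG, natDegree_finsetProd_X_sub_C_eq_card]
  have h1 := hG0 x₁ hx₁.2
  have h2 := hG0 x₂ hx₂.2
  have hd : (x₁ : ℝ) - x₂ ≠ 0 := by
    intro h
    apply hne
    exact_mod_cast (by linarith : (x₁ : ℝ) = x₂)
  set v₁ : ℝ := 1 / G.eval (x₁ : ℝ) with hv₁
  set v₂ : ℝ := -1 / G.eval (x₂ : ℝ) with hv₂
  set b : ℝ := (v₁ - v₂) / (x₁ - x₂) with hb
  refine ⟨G * (C (v₁ - b * x₁) + C b * X), ?_, ?_, ?_, ?_⟩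
  · refine natDegree_mul_le.trans ?_
    have h3 : (C (v₁ - b * x₁) + C b * X : ℝ[X]).natDegree ≤ 1 := by
      rw [add_comm]
      exact natDegree_linear_le
    omega
  · intro z hz
    rw [eval_mul, hGe, prod_eq_zero hz (by ring), zero_mul]
  · refine ⟨x₂, by omega, ?_⟩
    have : (G * (C (v₁ - b * x₁) + C b * X)).eval (x₂ : ℝ) = -1 := by
      simp only [eval_mul, eval_add, eval_C, eval_X]
      have : v₁ - b * x₁ + b * x₂ = v₂ := by
        rw [hb]
        field_simp
        ring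
      rw [this, hv₂]
      field_simp
    rw [this]
    norm_num
  · refine ⟨x₁, by omega, ?_⟩
    have : (G * (C (v₁ - b * x₁) + C b * X)).eval (x₁ : ℝ) = 1 := by
      simp only [eval_mul, eval_add, eval_C, eval_X]
      rw [sub_add_cancel, hv₁]
      field_simp
    rw [this]
    norm_num

theorem reduce_odd {N m : ℕ} (hN : 2 * m + 1 ≤ N) {b : ℕ → ℝ} (hb : ∀ x, 0 ≤ b x) {δ : ℝ}
    (hext : ∀ A : Finset ℕ, A.card = m → (∀ a ∈ A, 1 ≤ a) →
      δ * ((N : ℝ) * (∏ a ∈ A, ((X - C (a : ℝ)) * (X - C ((a : ℝ) + 1)))).eval 0) ≤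
        ∑ x ∈ range (N + 1), b x *
          (((N : ℝ) - x) * (∏ a ∈ A, ((X - C (a : ℝ)) * (X - C ((a : ℝ) + 1)))).eval (x : ℝ))) :
    ∀ f : ℝ[X], f.natDegree ≤ 2 * m + 1 → (∀ x : ℕ, x ≤ N → 0 ≤ f.eval (x : ℝ)) →
      δ * f.eval 0 ≤ ∑ x ∈ range (N + 1), b x * f.eval (x : ℝ) := by
  classical
  have main : ∀ n : ℕ, ∀ f : ℝ[X], f.natDegree ≤ 2 * m + 1 →
      (∀ x : ℕ, x ≤ N → 0 ≤ f.eval (x : ℝ)) →
      ((range (N + 1)).filter (fun x : ℕ => f.eval (x : ℝ) ≠ 0)).card = n →
      δ * f.eval 0 ≤ ∑ x ∈ range (N + 1), b x * f.eval (x : ℝ) := by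
    intro n
    induction n using Nat.strong_induction_on with
    | _ n ih =>
      intro f hfd hf hn
      by_cases h0 : f.eval 0 = 0
      · rw [h0, mul_zero]
        exact sum_nonneg fun x hx => mul_nonneg (hb x)
          (hf x (by have := mem_range.1 hx; omega))
      have h0pos : 0 < f.eval 0 := by
        have h1 := hf 0 (Nat.zero_le _)
        rw [Nat.cast_zero] at h1
        exact lt_of_le_of_ne h1 (Ne.symm h0)
      set Z : Finset ℕ := (range (N + 1)).filter (fun x : ℕ => f.eval (x : ℝ) = 0) with hZd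
      have hZN : Z ⊆ range (N + 1) := filter_subset _ _
      by_cases hZ : Z.card < 2 * m + 1
      · obtain ⟨h, hd, hhz, hneg, hpos⟩ := direction' hN hZN hZ
        have hhz' : ∀ x : ℕ, x ≤ N → f.eval (x : ℝ) = 0 → h.eval (x : ℝ) = 0 := fun x hx hx0 =>
          hhz x (mem_filter.2 ⟨mem_range.2 (by omega), hx0⟩)
        obtain ⟨t₁, ht₁, hp₁, hc₁⟩ := move hf hhz' hneg
        obtain ⟨t₂, ht₂, hp₂, hc₂⟩ := move (h := -h) hf
          (fun x hx hx0 => by rw [eval_neg, hhz' x hx hx0, neg_zero])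
          (by
            obtain ⟨x, hx, hx1⟩ := hpos
            exact ⟨x, hx, by rw [eval_neg]; linarith⟩)
        have hdeg : ∀ (t : ℝ) (k : ℝ[X]), k.natDegree ≤ 2 * m + 1 →
            (f + C t * k).natDegree ≤ 2 * m + 1 := fun t k hk =>
          (natDegree_add_le _ _).trans (max_le hfd ((natDegree_C_mul_le _ _).trans hk))
        have i1 := ih _ (hn ▸ hc₁) _ (hdeg t₁ h hd) hp₁ rfl
        have i2 := ih _ (hn ▸ hc₂) _ (hdeg t₂ (-h) (by rw [natDegree_neg]; exact hd)) hp₂ rfl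
        have e1 : ∀ t : ℝ, ∑ x ∈ range (N + 1), b x * (f + C t * h).eval (x : ℝ) =
            ∑ x ∈ range (N + 1), b x * f.eval (x : ℝ) +
              t * ∑ x ∈ range (N + 1), b x * h.eval (x : ℝ) := by
          intro t
          rw [mul_sum, ← sum_add_distrib]
          refine sum_congr rfl fun x _ => ?_
          rw [eval_add, eval_mul, eval_C]
          ring
        have e2 : (f + C t₂ * -h) = f + C (-t₂) * h := by
          rw [C_neg]
          ring
        rw [e2, e1, eval_add, eval_mul, eval_C] at i2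
        rw [e1, eval_add, eval_mul, eval_C] at i1
        have i3 := mul_le_mul_of_nonneg_left i1 ht₂.le
        have i4 := mul_le_mul_of_nonneg_left i2 ht₁.le
        have i5 : (t₁ + t₂) * (δ * f.eval 0) ≤
            (t₁ + t₂) * ∑ x ∈ range (N + 1), b x * f.eval (x : ℝ) := by
          nlinarith
        exact le_of_mul_le_mul_left i5 (by linarith)
      · push Not at hZ
        have hf0 : f ≠ 0 := fun h => h0 (by rw [h, eval_zero])
        set P : ℝ[X] := ∏ z ∈ Z, (X - C (z : ℝ)) with hP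
        have hPd : P.natDegree = Z.card := by
          rw [hP, natDegree_finsetProd_X_sub_C_eq_card]
        have hdvd : P ∣ f := by
          have h1 : ((Z.val.map (fun z : ℕ => (z : ℝ))).map fun a => X - C a).prod ∣ f := by
            rw [Multiset.prod_X_sub_C_dvd_iff_le_roots hf0, Multiset.le_iff_subset]
            · intro a ha
              rw [Multiset.mem_map] at ha
              obtain ⟨z, hz, rfl⟩ := ha
              rw [mem_roots hf0]
              have h5 : z ∈ Z := hz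
              rw [hZd, mem_filter] at h5
              exact h5.2
            · exact Z.nodup.map Nat.cast_injective
          rw [Multiset.map_map] at h1
          exact h1
        have hZc : Z.card = 2 * m + 1 := by
          have h1 := natDegree_le_of_dvd hdvd hf0
          omega
        obtain ⟨Q, hQ⟩ := hdvd
        have hP0 : P ≠ 0 := fun h => hf0 (by rw [hQ, h, zero_mul])
        have hQ0 : Q ≠ 0 := fun h => hf0 (by rw [hQ, h, mul_zero])
        have hQd : Q.natDegree = 0 := by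
          have h1 : f.natDegree = P.natDegree + Q.natDegree := by
            rw [hQ, natDegree_mul hP0 hQ0]
          omega
        obtain ⟨c, hc⟩ : ∃ c : ℝ, Q = C c := ⟨Q.coeff 0, eq_C_of_natDegree_eq_zero hQd⟩
        have hfe : ∀ x : ℝ, f.eval x = c * P.eval x := by
          intro x
          rw [hQ, hc, eval_mul, eval_C, mul_comm]
        have hPe : ∀ x : ℝ, P.eval x = ∏ z ∈ Z, (x - (z : ℝ)) := by
          intro x
          rw [hP, eval_prod]
          simp
        have hZ1 : ∀ z ∈ Z, 1 ≤ z := by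
          intro z hz
          by_contra h1
          have h2 : z = 0 := by omega
          apply h0
          have h3 := (mem_filter.1 hz).2
          rw [h2, Nat.cast_zero] at h3
          exact h3
        have hP0neg : P.eval 0 < 0 := by
          rw [hPe]
          apply prod_neg_odd
          · intro z hz
            exact_mod_cast (hZ1 z hz)
          · rw [hZc]
            exact odd_two_mul_add_one m
        have hcneg : c < 0 := by
          rw [hfe] at h0pos
          by_contra hcon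
          push Not at hcon
          nlinarith
        have hPle : ∀ x : ℕ, x ≤ N → ∏ z ∈ Z, ((x : ℝ) - (z : ℝ)) ≤ 0 := by
          intro x hx
          have h1 := hf x hx
          rw [hfe, hPe] at h1
          by_contra hcon
          push Not at hcon
          nlinarith
        have hNZ : N ∈ Z := by
          by_contra hnot
          have h1 := hPle N le_rfl
          have h2 : 0 < ∏ z ∈ Z, ((N : ℝ) - (z : ℝ)) := by
            apply prod_pos
            intro z hz
            have h3 := mem_range.1 (hZN hz)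
            have h4 : z ≠ N := fun h => hnot (h ▸ hz)
            have h5 : (z : ℝ) < N := by exact_mod_cast (by omega : z < N)
            linarith
          linarith
        set Z' : Finset ℕ := Z.erase N with hZ'
        have hZ'c : Z'.card = 2 * m := by
          rw [hZ', card_erase_of_mem hNZ, hZc]
          omega
        have hZ'N : Z' ⊆ range (N + 1) := (erase_subset _ _).trans hZN
        have hZ'lt : ∀ z ∈ Z', (z : ℝ) < N := by
          intro z hz
          rw [hZ', mem_erase] at hz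
          have h3 := mem_range.1 (hZN hz.2)
          exact_mod_cast (by omega : z < N)
        have hsplit : ∀ x : ℝ, ∏ z ∈ Z, (x - (z : ℝ)) = (x - N) * ∏ z ∈ Z', (x - (z : ℝ)) := by
          intro x
          rw [hZ', mul_prod_erase Z (fun z : ℕ => x - (z : ℝ)) hNZ]
        obtain ⟨A, hAZ, hAc, hAP⟩ := pairing N m Z' hZ'N hZ'c (by
          intro x hx
          rcases hx.lt_or_eq with h | h
          · have h1 := hPle x hx
            rw [hsplit] at h1
            have h2 : (x : ℝ) - N < 0 := by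
              have : (x : ℝ) < N := by exact_mod_cast h
              linarith
            by_contra hcon
            push Not at hcon
            nlinarith
          · subst h
            apply prod_nonneg
            intro z hz
            linarith [hZ'lt z hz])
        have h2 := hext A hAc (fun a ha => hZ1 a (mem_of_mem_erase (hAZ ha)))
        rw [← hAP] at h2
        have hPe' : ∀ x : ℝ, (∏ z ∈ Z', (X - C (z : ℝ))).eval x = ∏ z ∈ Z', (x - (z : ℝ)) := by
          intro x
          rw [eval_prod]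
          simp
        simp only [hPe'] at h2
        have h3 := mul_le_mul_of_nonneg_left h2 (by linarith : (0:ℝ) ≤ -c)
        have e1 : ∀ x : ℝ, f.eval x = (-c) * (((N : ℝ) - x) * ∏ z ∈ Z', (x - (z : ℝ))) := by
          intro x
          rw [hfe, hPe, hsplit]
          ring
        rw [e1]
        calc δ * (-c * (((N : ℝ) - 0) * ∏ z ∈ Z', (0 - (z : ℝ))))
            = -c * (δ * ((N : ℝ) * ∏ z ∈ Z', (0 - (z : ℝ)))) := by ring
          _ ≤ _ := h3
          _ = _ := by
            rw [mul_sum]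
            refine sum_congr rfl fun x _ => ?_
            rw [e1]
            ring
  intro f hfd hf
  exact main _ f hfd hf rfl

lemma ext_ineq {N m : ℕ} (hm : m ≤ N) {p θ δ : ℝ} (hp0 : 0 < p) (hp1 : p < 1)
    (hθ : 0 ≤ θ) (hθ2 : (1 - 2 * p) ^ 2 * m ≤ θ ^ 2 * (p * (1 - p) * (N - m + 1)))
    (hδ0 : 0 ≤ δ)
    (hδ : δ * ((1 + m / (N - m + 1)) * KK (N + 1) m (p / (1 - p))) ≤ 1 - θ - m / (N - m + 1)) :
    ∀ A : Finset ℕ, A.card = m → (∀ a ∈ A, 1 ≤ a) →
      δ * (∏ a ∈ A, ((X - C (a : ℝ)) * (X - C ((a : ℝ) + 1)))).eval 0 ≤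
        ∑ x ∈ range (N + 1), bi N p x *
          (∏ a ∈ A, ((X - C (a : ℝ)) * (X - C ((a : ℝ) + 1)))).eval (x : ℝ) := by
  intro A hAc hA1
  set g : ℝ[X] := ∏ a ∈ A, (X - C ((a : ℝ) + 1)) with hg
  have hgd : g.natDegree ≤ m := by
    rw [hg, natDegree_finsetProd_X_sub_C_eq_card]
    exact hAc.le
  have hge : ∀ x : ℝ, g.eval x = ∏ a ∈ A, (x - ((a : ℝ) + 1)) := by
    intro x
    rw [hg, eval_prod]
    simp
  have hPe : ∀ x : ℝ, (∏ a ∈ A, ((X - C (a : ℝ)) * (X - C ((a : ℝ) + 1)))).eval x =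
      g.eval x * g.eval (x + 1) := by
    intro x
    rw [hge, hge, eval_prod, ← prod_mul_distrib]
    refine prod_congr rfl fun a _ => ?_
    simp only [eval_mul, eval_sub, eval_X, eval_C]
    ring
  obtain ⟨Aq, hA0, hE, hC⟩ := key hm hp0 hp1 hθ hθ2 g hgd
  have h4 : g.eval 0 * g.eval (0 + 1) ≤ (g.eval 0) ^ 2 := by
    rw [hge, hge, ← prod_mul_distrib, ← prod_pow]
    apply Finset.prod_le_prod
    · intro a ha
      have : (0:ℝ) ≤ a := Nat.cast_nonneg a
      nlinarith
    · intro a ha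
      have : (0:ℝ) ≤ a := Nat.cast_nonneg a
      nlinarith
  rw [hPe]
  calc δ * (g.eval 0 * g.eval (0 + 1)) ≤ δ * (g.eval 0) ^ 2 :=
        mul_le_mul_of_nonneg_left h4 hδ0
    _ ≤ δ * ((1 + m / (N - m + 1)) * KK (N + 1) m (p / (1 - p)) * Aq) :=
        mul_le_mul_of_nonneg_left hC hδ0
    _ = δ * ((1 + m / (N - m + 1)) * KK (N + 1) m (p / (1 - p))) * Aq := by ring
    _ ≤ (1 - θ - m / (N - m + 1)) * Aq := mul_le_mul_of_nonneg_right hδ hA0
    _ ≤ _ := hE
    _ = _ := by
      refine sum_congr rfl fun x _ => ?_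
      rw [hPe]
      rfl

/-- the sharp law of odd order -/
theorem exists_q_odd {N m : ℕ} (hN : 2 * m ≤ N) {p θ δ : ℝ} (hp0 : 0 < p) (hp1 : p < 1)
    (hθ : 0 ≤ θ) (hθ2 : (1 - 2 * p) ^ 2 * m ≤ θ ^ 2 * (p * (1 - p) * (N - m + 1)))
    (hδ0 : 0 ≤ δ) (hδ1 : δ < 1)
    (hδ : δ * ((1 + m / (N - m + 1)) * KK (N + 1) m (p / (1 - p))) ≤ 1 - θ - m / (N - m + 1)) :
    ∃ q : ℕ → ℝ, (∀ x, 0 ≤ q x) ∧
      (∀ j ≤ 2 * m + 1, ∑ x ∈ range (N + 1 + 1), q x * (x.choose j : ℝ) =
      ((N + 1).choose j : ℝ) * p ^ j) ∧ (1 - p) * δ ≤ q 0 := by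
  have hm : m ≤ N := by omega
  have hb : ∀ x, 0 ≤ bi (N + 1) p x := fun x => bi_nonneg hp0.le hp1.le x
  have hext := ext_ineq hm hp0 hp1 hθ hθ2 hδ0 hδ
  have hstep : ∀ x : ℕ, x ≤ N → bi (N + 1) p x * (((N + 1 : ℕ) : ℝ) - x) =
      ((N : ℝ) + 1) * (1 - p) * bi N p x := by
    intro x hx
    unfold bi
    have h1 := Nat.choose_mul_succ_eq N x
    have h2 : ((N.choose x : ℕ) : ℝ) * ((N : ℝ) + 1) =
        ((N + 1).choose x : ℝ) * (((N + 1 : ℕ) : ℝ) - x) := by
      rw [← Nat.cast_sub (by omega)]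
      exact_mod_cast h1
    have h3 : N + 1 - x = (N - x) + 1 := by omega
    rw [h3, pow_succ]
    calc ((N + 1).choose x : ℝ) * p ^ x * ((1 - p) ^ (N - x) * (1 - p)) * (((N + 1 : ℕ) : ℝ) - x)
        = (((N + 1).choose x : ℝ) * (((N + 1 : ℕ) : ℝ) - x)) * p ^ x * (1 - p) ^ (N - x) *
          (1 - p) := by ring
      _ = _ := by rw [← h2]; ring
  obtain ⟨q, h1, h2, h3⟩ := dual (N := N + 1) (K := 2 * m + 1) (b := bi (N + 1) p)
    (bi_sum (N + 1) p) (δ := (1 - p) * δ) (mul_nonneg (by linarith) hδ0) (by nlinarith)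
    (reduce_odd (by omega) hb (by
      intro A hAc hA1
      have h := hext A hAc hA1
      set P : ℝ[X] := ∏ a ∈ A, ((X - C (a : ℝ)) * (X - C ((a : ℝ) + 1))) with hP
      rw [sum_range_succ _ (N + 1)]
      have e1 : ∑ x ∈ range (N + 1), bi (N + 1) p x *
          ((((N + 1 : ℕ) : ℝ) - x) * P.eval (x : ℝ)) =
          ((N : ℝ) + 1) * (1 - p) * ∑ x ∈ range (N + 1), bi N p x * P.eval (x : ℝ) := by
        rw [mul_sum]
        refine sum_congr rfl fun x hx => ?_
        rw [← mul_assoc, hstep x (by have := mem_range.1 hx; omega), mul_assoc]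
      rw [e1, sub_self, zero_mul, mul_zero, add_zero]
      have h4 : 0 ≤ ((N : ℝ) + 1) * (1 - p) := mul_nonneg (by positivity) (by linarith)
      have h5 := mul_le_mul_of_nonneg_left h h4
      calc (1 - p) * δ * (((N + 1 : ℕ) : ℝ) * P.eval 0)
          = ((N : ℝ) + 1) * (1 - p) * (δ * P.eval 0) := by push_cast; ring
        _ ≤ _ := h5))
  refine ⟨q, h1, fun j hj => ?_, h3⟩
  rw [h2 j hj, bi_moment (N + 1) p j (by omega)]

/-- the law on one block, odd order -/
lemma block_law_odd {I : Finset ℕ} {N m : ℕ} {L θ δ : ℝ} (hIc : I.card = N + 1) (hm : 2 * m ≤ N)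
    (hL : 1 < L) (hI : ∀ y ∈ I, 3 ≤ y ∧ L ≤ Real.log y) (hθ : 0 ≤ θ)
    (hθ2 : (m : ℝ) ≤ θ ^ 2 * (1 / L * (1 - 1 / L) * ((N : ℝ) - m + 1)))
    (hδ0 : 0 ≤ δ) (hδ1 : δ < 1)
    (hδ : δ * ((1 + m / ((N : ℝ) - m + 1)) * KK (N + 1) m (1 / (L - 1))) ≤
      1 - θ - m / ((N : ℝ) - m + 1)) :
    ∃ w : Finset ℕ → ℝ, IsLaw I (2 * m + 1) cp w ∧ (1 - 1 / L) * δ ≤ w ∅ := by
  have hL0 : 0 < L := by linarith
  have hp0 : 0 < 1 / L := by positivity
  have hp1 : 1 / L < 1 := by
    rw [div_lt_one hL0]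
    exact hL
  have hr : 1 / L / (1 - 1 / L) = 1 / (L - 1) := by
    have : L - 1 ≠ 0 := by linarith
    have h2 : 1 - 1 / L ≠ 0 := by linarith
    field_simp
  obtain ⟨q, q1, q2, q3⟩ := exists_q_odd (N := N) (m := m) hm (p := 1 / L) (θ := θ) (δ := δ)
    hp0 hp1 hθ (by
      have h1 : (1 - 2 * (1 / L)) ^ 2 ≤ 1 := by
        rw [sq_le_one_iff_abs_le_one, abs_le]
        constructor <;> linarith
      have h2 : (1 - 2 * (1 / L)) ^ 2 * (m : ℝ) ≤ 1 * m :=
        mul_le_mul_of_nonneg_right h1 (Nat.cast_nonneg _)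
      linarith) hδ0 hδ1 (by rw [hr]; exact hδ)
  have hl := law_of_q (I := I) hIc q1 q2
  obtain ⟨w, w1, w2⟩ := thin hl hp0 (p' := cp) (fun n _ => cp_nonneg n) (by
    intro y hy
    obtain ⟨h3, h4⟩ := hI y hy
    unfold cp
    rw [if_pos h3]
    exact one_div_le_one_div_of_le hL0 h4)
  refine ⟨w, w1, le_trans ?_ w2⟩
  simp only [card_empty, Nat.choose_zero_right, Nat.cast_one, div_one]
  exact q3

end Q167.LI
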