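import Pool.Agent.Q167.LI.M

/-! # The largest gap for every order of independence: the upper bound -/

set_option autoImplicit false

namespace Q167.LI

open Finset MeasureTheory Filter Topology Q198.CI

/-- half the order of independence, at most `log x` -/
noncomputable def ord (κ : ℕ → ℕ) (x : ℕ) : ℕ := min (κ x / 2) ⌊Real.log x⌋₊

lemma ord_mono {κ : ℕ → ℕ} (hκ : Monotone κ) {x y : ℕ} (hx : 1 ≤ x) (hxy : x ≤ y) :
    ord κ x ≤ ord κ y := by
  unfold ord
  apply min_le_min (Nat.div_le_div_right (hκ hxy))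
  apply Nat.floor_mono
  apply Real.log_le_log (by exact_mod_cast hx)
  exact_mod_cast hxy

/-- `κ / log log n → ∞` -/
def Fast (κ : ℕ → ℕ) : Prop :=
  ∀ C : ℝ, ∀ᶠ n : ℕ in atTop, C * Real.log (Real.log n) ≤ κ n

lemma ord_fast {κ : ℕ → ℕ} (h : Fast κ) (C : ℝ) :
    ∀ᶠ n : ℕ in atTop, C * Real.log (Real.log n) ≤ ord κ n := by
  have hlog : Tendsto (fun n : ℕ => Real.log (n : ℝ)) atTop atTop := tendsto_log_nat
  have hll : Tendsto (fun n : ℕ => Real.log (Real.log (n : ℝ))) atTop atTop :=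
    Real.tendsto_log_atTop.comp hlog
  have h2 : ∀ᶠ t : ℝ in atTop, (|C| + 1) * Real.log t ≤ t - 1 := by
    have h3 : Real.log =o[atTop] (id : ℝ → ℝ) := Real.isLittleO_log_id_atTop
    have h4 := h3.def (c := 1 / (2 * (|C| + 1))) (by positivity)
    filter_upwards [h4, eventually_ge_atTop (2:ℝ)] with t h5 h6
    rw [Real.norm_of_nonneg (Real.log_nonneg (by linarith)), id, Real.norm_of_nonneg (by linarith)]
      at h5
    have h7 : (|C| + 1) * Real.log t ≤ (|C| + 1) * (1 / (2 * (|C| + 1)) * t) :=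
      mul_le_mul_of_nonneg_left h5 (by positivity)
    have h8 : (|C| + 1) * (1 / (2 * (|C| + 1)) * t) = t / 2 := by
      have : |C| + 1 ≠ 0 := by positivity
      field_simp
    linarith
  filter_upwards [h (2 * (|C| + 1)), hll.eventually_ge_atTop 1, hlog.eventually h2]
    with n g1 g2 g3
  have hCa : C ≤ |C| := le_abs_self C
  unfold ord
  rw [Nat.cast_min]
  apply le_min
  · have h5 : (κ n : ℝ) ≤ 2 * ((κ n / 2 : ℕ) : ℝ) + 1 := by
      have : κ n ≤ 2 * (κ n / 2) + 1 := by omega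
      exact_mod_cast this
    nlinarith
  · have h5 := (Nat.lt_floor_add_one (Real.log n)).le
    have h6 : C * Real.log (Real.log n) ≤ (|C| + 1) * Real.log (Real.log n) :=
      mul_le_mul_of_nonneg_right (by linarith) (by linarith)
    linarith

/-- the estimate for one class of windows -/
lemma class_bound {j m : ℕ} {ε g : ℝ} (hε : 0 < ε) (hε1 : ε ≤ 1) (hj : 1 ≤ j) (hm : 1 ≤ m)
    (hmj : m ≤ j) (hg : 0 < g)
    (hpow : g ^ (m + 1) = 2 ^ j * (m / Real.exp 1 * (j * Real.log 2)) ^ m)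
    (hg1 : 8 / ε ≤ g) (hg2 : 8 / ε * m ≤ g) (hg3 : g ≤ 2 ^ j) {c : ℝ}
    (hc : c ≤ 2 ^ (j + 2) / (⌊ε / 4 * g⌋₊ : ℝ) + 1) :
    c / ((Real.exp 1 * (((⌊(1 + ε / 2) * g⌋₊ : ℝ) - m + 1) * (1 / ((j + 2) * Real.log 2))) / m) ^ m /
      (Real.exp 1 * m)) ≤ 64 * Real.exp 1 * Real.exp 2 / ε * (m / (1 + ε / 4) ^ m) := by
  have he := Real.exp_pos 1
  have hm0 : (0:ℝ) < m := by exact_mod_cast hm
  have hj0 : (0:ℝ) < j := by exact_mod_cast hj
  have hl2 : 0 < Real.log 2 := Real.log_pos (by norm_num)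
  set h : ℝ := (⌊ε / 4 * g⌋₊ : ℝ) with hh
  set w : ℝ := (⌊(1 + ε / 2) * g⌋₊ : ℝ) with hw
  set ρ : ℝ := 1 / ((j + 2) * Real.log 2) with hρ
  have hρ0 : 0 < ρ := by positivity
  set Q : ℝ := 1 + ε / 4 with hQ
  have hQ0 : 0 < Q := by linarith
  rw [div_le_iff₀ hε] at hg1
  have hg2' : 8 * (m : ℝ) ≤ g * ε := by
    rw [div_mul_eq_mul_div, div_le_iff₀ hε] at hg2
    exact hg2
  have h1 : ε / 8 * g ≤ h := by
    have := Nat.lt_floor_add_one (ε / 4 * g)
    rw [← hh] at this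
    nlinarith
  have h2 : Q * g ≤ w - m + 1 := by
    have := Nat.lt_floor_add_one ((1 + ε / 2) * g)
    rw [← hw] at this
    rw [hQ]
    nlinarith
  have hh0 : 0 < h := lt_of_lt_of_le (by positivity) h1
  have hh1 : h ≤ 2 ^ j := by
    have := Nat.floor_le (show 0 ≤ ε / 4 * g by positivity)
    rw [← hh] at this
    nlinarith
  -- the count
  have hc' : c ≤ 8 * 2 ^ j / h := by
    refine hc.trans ?_
    rw [div_add_one hh0.ne']
    apply div_le_div_of_nonneg_right _ hh0.le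
    have : (2:ℝ) ^ (j + 2) = 4 * 2 ^ j := by rw [pow_add]; ring
    have h5 : (0:ℝ) < 2 ^ j := by positivity
    linarith
  have hc'' : c ≤ 64 * 2 ^ j / (ε * g) := by
    refine hc'.trans ?_
    rw [div_le_div_iff₀ hh0 (by positivity)]
    have : (0:ℝ) < 2 ^ j := by positivity
    nlinarith
  set U : ℝ := m / (Real.exp 1 * (Q * g * ρ)) with hU
  have hU0 : 0 < U := by positivity
  have h3 : (1 / U) ^ m ≤ (Real.exp 1 * ((w - m + 1) * ρ) / m) ^ m := by
    apply pow_le_pow_left₀ (by positivity)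
    rw [hU, one_div_div]
    apply div_le_div_of_nonneg_right _ hm0.le
    apply mul_le_mul_of_nonneg_left _ he.le
    exact mul_le_mul_of_nonneg_right h2 hρ0.le
  have h4 : (U * Q) ^ m * 2 ^ j = g * (((j : ℝ) + 2) / j) ^ m := by
    have e1 : U * Q = m / Real.exp 1 * (j * Real.log 2) * ((((j : ℝ) + 2) / j) / g) := by
      rw [hU, hρ]
      field_simp
    rw [e1, mul_pow, div_pow _ g]
    have hgm : g ^ m ≠ 0 := (pow_pos hg m).ne'
    calc (m / Real.exp 1 * (j * Real.log 2)) ^ m * ((((j : ℝ) + 2) / j) ^ m / g ^ m) * 2 ^ j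
        = (2 ^ j * (m / Real.exp 1 * (j * Real.log 2)) ^ m) * (((j : ℝ) + 2) / j) ^ m / g ^ m := by
          ring
      _ = g ^ (m + 1) * (((j : ℝ) + 2) / j) ^ m / g ^ m := by rw [← hpow]
      _ = _ := by
        rw [pow_succ]
        field_simp
  have h5 : (((j : ℝ) + 2) / j) ^ m ≤ Real.exp 2 := by
    have e1 : ((j : ℝ) + 2) / j ≤ Real.exp (2 / j) := by
      have := Real.add_one_le_exp (2 / (j : ℝ))
      rw [add_div, div_self hj0.ne']
      linarith
    refine (pow_le_pow_left₀ (by positivity) e1 m).trans ?_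
    rw [← Real.exp_nat_mul]
    apply Real.exp_le_exp.2
    rw [mul_div_assoc', div_le_iff₀ hj0]
    have : (m : ℝ) ≤ j := by exact_mod_cast hmj
    linarith
  have h6 : U ^ m * 2 ^ j ≤ g * Real.exp 2 / Q ^ m := by
    rw [le_div_iff₀ (by positivity)]
    calc U ^ m * 2 ^ j * Q ^ m = (U * Q) ^ m * 2 ^ j := by rw [mul_pow]; ring
      _ = g * (((j : ℝ) + 2) / j) ^ m := h4
      _ ≤ _ := mul_le_mul_of_nonneg_left h5 hg.le
  set D : ℝ := (Real.exp 1 * ((w - m + 1) * ρ) / m) ^ m with hD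
  have hD0 : 0 < D := lt_of_lt_of_le (by positivity) h3
  have h7 : 1 ≤ D * U ^ m := by
    have := mul_le_mul_of_nonneg_right h3 (by positivity : (0:ℝ) ≤ U ^ m)
    rw [← mul_pow, one_div_mul_cancel hU0.ne', one_pow] at this
    exact this
  rw [div_le_iff₀ (by positivity)]
  have h8 : 64 * 2 ^ j / (ε * g) ≤ 64 * Real.exp 2 / (ε * Q ^ m) * D := by
    rw [div_le_iff₀ (by positivity)]
    have h9 : (2:ℝ) ^ j ≤ D * (g * Real.exp 2 / Q ^ m) := by
      calc (2:ℝ) ^ j ≤ (D * U ^ m) * 2 ^ j := le_mul_of_one_le_left (by positivity) h7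
        _ = D * (U ^ m * 2 ^ j) := by ring
        _ ≤ _ := mul_le_mul_of_nonneg_left h6 hD0.le
    calc 64 * (2:ℝ) ^ j ≤ 64 * (D * (g * Real.exp 2 / Q ^ m)) := by linarith
      _ = _ := by field_simp
  refine hc''.trans (h8.trans (le_of_eq ?_))
  field_simp

lemma exists_scale {κ : ℕ → ℕ} (hκ : Fast κ) {ε : ℝ} (hε : 0 < ε) :
    ∃ j₀ : ℕ, ∀ j, j₀ ≤ j → 3 ≤ j ∧ 1 ≤ ord κ (2 ^ j) ∧ (j : ℝ) * (j : ℝ) ≤ 2 ^ j ∧
      8 / ε ≤ j * Real.log 2 / Real.exp 1 ∧
      ((j : ℝ) + 1) ^ 2 ≤ (1 + ε / 16) ^ (ord κ (2 ^ j)) := by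
  have hv : 0 < Real.log (1 + ε / 16) := Real.log_pos (by linarith)
  have hl2 : 0 < Real.log 2 := Real.log_pos (by norm_num)
  have hpow : Tendsto (fun j : ℕ => 2 ^ j) atTop (atTop : Filter ℕ) :=
    tendsto_pow_atTop_atTop_of_one_lt (by norm_num)
  have h1 := hpow.eventually (ord_fast hκ (8 / Real.log (1 + ε / 16)))
  have h2 := hpow.eventually (ord_fast hκ 1)
  have hcast : Tendsto (fun j : ℕ => (j : ℝ)) atTop atTop := tendsto_natCast_atTop_atTop
  have h3 : ∀ᶠ j : ℕ in atTop, Real.sqrt (j + 1) ≤ (j : ℝ) * Real.log 2 := by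
    filter_upwards [hcast.eventually_ge_atTop (4 : ℝ)] with j hj
    have hl := Real.log_two_gt_d9
    rw [Real.sqrt_le_iff]
    constructor
    · positivity
    · have : (j : ℝ) * 0.69 ≤ j * Real.log 2 := mul_le_mul_of_nonneg_left (by linarith) (by linarith)
      nlinarith
  have h4 : ∀ᶠ j : ℕ in atTop, (j : ℝ) * (j : ℝ) ≤ 2 ^ j := by
    have h5 := tendsto_pow_const_div_const_pow_of_one_lt 2 (show (1:ℝ) < 2 by norm_num)
    filter_upwards [h5.eventually_le_const zero_lt_one] with j hj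
    rw [div_le_one (by positivity)] at hj
    nlinarith
  have h5 : ∀ᶠ j : ℕ in atTop, 8 / ε ≤ (j : ℝ) * Real.log 2 / Real.exp 1 :=
    (((hcast.atTop_mul_const hl2).atTop_div_const (Real.exp_pos 1))).eventually_ge_atTop _
  have hll : Tendsto (fun j : ℕ => Real.log ((j : ℝ) * Real.log 2)) atTop atTop :=
    Real.tendsto_log_atTop.comp (hcast.atTop_mul_const hl2)
  obtain ⟨j₀, hj₀⟩ := eventually_atTop.1 (h1.and (h2.and (h3.and (h4.and (h5.and
    ((hll.eventually_ge_atTop 1).and (eventually_ge_atTop 3)))))))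
  refine ⟨j₀, fun j hj => ?_⟩
  obtain ⟨g1, g2, g3, g4, g5, g6, g7⟩ := hj₀ j hj
  have e1 : Real.log ((2 ^ j : ℕ) : ℝ) = j * Real.log 2 := by
    push_cast
    rw [Real.log_pow]
  rw [e1] at g1 g2
  refine ⟨g7, ?_, g4, g5, ?_⟩
  · have h6 : (1:ℝ) ≤ ord κ (2 ^ j) := by linarith
    exact_mod_cast h6
  · have hj0 : (0:ℝ) < (j : ℝ) + 1 := by positivity
    have h6 : 1 / 2 * Real.log ((j : ℝ) + 1) ≤ Real.log ((j : ℝ) * Real.log 2) := by
      have h7 := Real.log_le_log (Real.sqrt_pos.2 hj0) g3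
      rw [Real.log_sqrt hj0.le] at h7
      linarith
    have h7 : 8 / Real.log (1 + ε / 16) * (1 / 2 * Real.log ((j : ℝ) + 1)) ≤ ord κ (2 ^ j) :=
      (mul_le_mul_of_nonneg_left h6 (by positivity)).trans g1
    have h8 : 4 * Real.log ((j : ℝ) + 1) ≤ Real.log (1 + ε / 16) * ord κ (2 ^ j) := by
      have key : ∀ a b : ℝ, a ≠ 0 → 4 * b = a * (8 / a * (1 / 2 * b)) := by
        intro a b ha
        field_simp
        ring
      calc 4 * Real.log ((j : ℝ) + 1) = Real.log (1 + ε / 16) *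
          (8 / Real.log (1 + ε / 16) * (1 / 2 * Real.log ((j : ℝ) + 1))) := key _ _ hv.ne'
        _ ≤ _ := mul_le_mul_of_nonneg_left h7 hv.le
    have hlj : 0 ≤ Real.log ((j : ℝ) + 1) := Real.log_nonneg (by
      have : (0:ℝ) ≤ j := Nat.cast_nonneg _
      linarith)
    have h9 : ((j : ℝ) + 1) ^ 2 = Real.exp (2 * Real.log ((j : ℝ) + 1)) := by
      have h11 : (2 : ℝ) * Real.log ((j : ℝ) + 1) = Real.log (((j : ℝ) + 1) ^ 2) := by
        rw [Real.log_pow]
        norm_num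
      rw [h11, Real.exp_log (by positivity)]
    have h10 : (1 + ε / 16) ^ (ord κ (2 ^ j)) =
        Real.exp (Real.log (1 + ε / 16) * ord κ (2 ^ j)) := by
      rw [← Real.rpow_natCast, Real.rpow_def_of_pos (by linarith)]
    rw [h9, h10]
    apply Real.exp_le_exp.2
    linarith

/-- the upper bound for the largest gap -/
theorem univ_upper {Ω : Type*} [MeasurableSpace Ω] (P : Measure Ω) [IsProbabilityMeasure P]
    {E : ℕ → Set Ω} {κ : ℕ → ℕ} (hE : ∀ n, MeasurableSet (E n))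
    (hT : ∀ T : Finset ℕ, (∀ n ∈ T, 3 ≤ n ∧ T.card ≤ κ n) →
      P (⋂ n ∈ T, E n) = ENNReal.ofReal (∏ n ∈ T, 1 / Real.log n))
    (hmono : Monotone κ) (hκ : Fast κ) {ε : ℝ} (hε : 0 < ε) (hε1 : ε ≤ 1) :
    ∀ᵐ ω ∂P, ∀ᶠ x : ℕ in atTop, ∃ n : ℕ, x < n ∧
      (n : ℝ) ≤ x + (1 + ε) * GG (ord κ x) x ∧ ω ∈ E n := by
  classical
  obtain ⟨j₀, hj₀⟩ := exists_scale hκ hε
  have hl2 : 0 < Real.log 2 := Real.log_pos (by norm_num)
  have hl2' : Real.log 2 < 0.6931471808 := Real.log_two_lt_d9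
  have he := Real.exp_pos 1
  set g : ℕ × ℕ → ℝ := fun i => GG i.2 (2 ^ i.1) with hg
  set h : ℕ × ℕ → ℕ := fun i => ⌊ε / 4 * g i⌋₊ with hh
  set w : ℕ × ℕ → ℕ := fun i => ⌊(1 + ε / 2) * g i⌋₊ with hw
  set A : ℕ × ℕ → Finset ℕ := fun i =>
    if j₀ ≤ i.1 ∧ ord κ (2 ^ i.1) ≤ i.2 ∧ i.2 ≤ i.1 then
      (range (2 ^ (i.1 + 2) / h i + 1)).filter (fun k => 2 ^ i.1 ≤ k * h i ∧
        k * h i + w i ≤ 2 ^ (i.1 + 2) ∧ 2 * i.2 ≤ κ (k * h i)) else ∅ with hA
  -- facts about a class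
  have facts : ∀ i : ℕ × ℕ, j₀ ≤ i.1 → ord κ (2 ^ i.1) ≤ i.2 → i.2 ≤ i.1 →
      1 ≤ i.2 ∧ 3 ≤ i.1 ∧ 0 < g i ∧
      g i ^ (i.2 + 1) = 2 ^ i.1 * (i.2 / Real.exp 1 * (i.1 * Real.log 2)) ^ i.2 ∧
      8 / ε ≤ g i ∧ 8 / ε * i.2 ≤ g i ∧ g i ≤ 2 ^ i.1 := by
    rintro ⟨j, m⟩ h1 h2 h3
    dsimp only at h1 h2 h3 ⊢
    obtain ⟨g1, g2, g3, g4, g5⟩ := hj₀ j h1
    have hm : 1 ≤ m := g2.trans h2
    have hm0 : (1:ℝ) ≤ m := by exact_mod_cast hm
    have hmj : (m : ℝ) ≤ j := by exact_mod_cast h3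
    have hj0 : (0:ℝ) ≤ j := by linarith
    have hx1 : (1:ℝ) < 2 ^ j := one_lt_pow₀ (by norm_num) (by omega)
    have hlog : Real.log ((2:ℝ) ^ j) = j * Real.log 2 := Real.log_pow _ _
    have hcond : m / Real.exp 1 * Real.log ((2:ℝ) ^ j) ≤ 2 ^ j := by
      rw [hlog]
      refine le_trans ?_ g3
      have h5 : (m : ℝ) / Real.exp 1 ≤ m := by
        apply div_le_self (by linarith)
        have := Real.add_one_le_exp 1
        linarith
      have h6 : (j : ℝ) * Real.log 2 ≤ j := mul_le_of_le_one_right hj0 (by linarith)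
      calc (m : ℝ) / Real.exp 1 * (j * Real.log 2) ≤ m * j :=
            mul_le_mul h5 h6 (by positivity) (by linarith)
        _ ≤ _ := mul_le_mul_of_nonneg_right hmj hj0
    obtain ⟨b1, b2⟩ := GG_bounds hm hx1 hcond
    rw [hlog] at b1
    have h7 : 8 / ε * m ≤ m / Real.exp 1 * (j * Real.log 2) := by
      calc 8 / ε * m ≤ (j * Real.log 2 / Real.exp 1) * m :=
            mul_le_mul_of_nonneg_right g4 (by linarith)
        _ = _ := by ring
    refine ⟨hm, g1, GG_pos hm hx1, ?_, ?_, h7.trans b1, b2⟩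
    · simp only [hg]
      rw [GG_pow hm hx1, hlog]
    · refine le_trans ?_ (h7.trans b1)
      exact le_mul_of_one_le_right (by positivity) hm0
  have hmemA : ∀ i k, k ∈ A i → (j₀ ≤ i.1 ∧ ord κ (2 ^ i.1) ≤ i.2 ∧ i.2 ≤ i.1) ∧
      2 ^ i.1 ≤ k * h i ∧ k * h i + w i ≤ 2 ^ (i.1 + 2) ∧ 2 * i.2 ≤ κ (k * h i) := by
    intro i k hk
    simp only [hA] at hk
    split_ifs at hk with h1
    · exact ⟨h1, (mem_filter.1 hk).2⟩
    · simp at hk
  set v : ℝ := 1 + ε / 16 with hv
  have hv1 : 1 < v := by rw [hv]; linarith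
  have hv0 : 0 < v := by linarith
  set C : ℝ := 64 * Real.exp 1 * Real.exp 2 / ε * (16 / ε) with hC
  have hC0 : 0 < C := by positivity
  have hne : ∀ i, (A i).Nonempty → j₀ ≤ i.1 ∧ ord κ (2 ^ i.1) ≤ i.2 ∧ i.2 ≤ i.1 := by
    rintro i ⟨k, hk⟩
    exact (hmemA i k hk).1
  have hbc := fam_upper P hE (W := fun i k => Ioc (k * h i) (k * h i + w i)) (A := A)
    (m := fun i => i.2) (p := cp)
    (Kq := fun i => (Real.exp 1 * (((w i : ℝ) - i.2 + 1) * (1 / ((i.1 + 2) * Real.log 2))) /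
      i.2) ^ i.2 / (Real.exp 1 * i.2))
    (s := fun i => C * ((1 / ((i.1 : ℝ) + 1) ^ 2) * (1 / v) ^ i.2))
    (by
      intro i k hk n hn
      obtain ⟨⟨a1, a2, a3⟩, a4, a5, a6⟩ := hmemA i k hk
      obtain ⟨b1, b2, -⟩ := facts i a1 a2 a3
      rw [mem_Ioc] at hn
      have h8 : 8 ≤ 2 ^ i.1 := by
        calc 8 = 2 ^ 3 := by norm_num
          _ ≤ 2 ^ i.1 := Nat.pow_le_pow_right (by norm_num) b2
      have h3 : 3 ≤ n := by omega
      refine ⟨cp_nonneg n, ?_⟩
      unfold cp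
      rw [if_pos h3, div_lt_one (by linarith [one_lt_log h3])]
      exact one_lt_log h3)
    (by
      intro i k hk T hTW hTc
      obtain ⟨⟨a1, a2, a3⟩, a4, a5, a6⟩ := hmemA i k hk
      obtain ⟨b1, b2, -⟩ := facts i a1 a2 a3
      have h8 : 8 ≤ 2 ^ i.1 := by
        calc 8 = 2 ^ 3 := by norm_num
          _ ≤ 2 ^ i.1 := Nat.pow_le_pow_right (by norm_num) b2
      have hn3 : ∀ n ∈ T, 3 ≤ n ∧ T.card ≤ κ n := by
        intro n hn
        have h1 := mem_Ioc.1 (hTW hn)
        refine ⟨by omega, hTc.trans (a6.trans (hmono (by omega)))⟩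
      rw [hT T hn3]
      congr 1
      refine prod_congr rfl fun n hn => ?_
      unfold cp
      rw [if_pos (hn3 n hn).1])
    (by
      intro i hi
      obtain ⟨a1, a2, a3⟩ := hne i hi
      obtain ⟨b1, b2, b3, b4, b5, b6, b7⟩ := facts i a1 a2 a3
      have hm0 : (0:ℝ) < i.2 := by exact_mod_cast b1
      have h1 : (i.2 : ℝ) ≤ g i / 8 := by
        have : (8:ℝ) * i.2 ≤ 8 / ε * i.2 := by
          apply mul_le_mul_of_nonneg_right _ hm0.le
          rw [le_div_iff₀ hε]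
          linarith
        linarith
      have h2 : 0 < (w i : ℝ) - i.2 + 1 := by
        have := Nat.lt_floor_add_one ((1 + ε / 2) * g i)
        have h3 : g i ≤ (1 + ε / 2) * g i := by nlinarith
        simp only [hw]
        linarith
      positivity)
    (by
      intro i k hk
      obtain ⟨⟨a1, a2, a3⟩, a4, a5, a6⟩ := hmemA i k hk
      obtain ⟨b1, b2, b3, b4, b5, b6, b7⟩ := facts i a1 a2 a3
      have hm0 : (0:ℝ) < i.2 := by exact_mod_cast b1
      have hmw : i.2 ≤ w i := by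
        apply Nat.le_floor
        have : (i.2 : ℝ) ≤ 8 / ε * i.2 := by
          apply le_mul_of_one_le_left hm0.le
          rw [le_div_iff₀ hε]
          linarith
        nlinarith
      refine (choose_mul_ge b1 hmw (by positivity)).trans ?_
      have h1 := sum_ge_choose (I := Ioc (k * h i) (k * h i + w i)) (m := i.2)
        (r := fun n => cp n / (1 - cp n)) (ρ := 1 / ((i.1 + 2) * Real.log 2)) (by positivity) (by
          intro n hn
          rw [mem_Ioc] at hn
          have h8 : 8 ≤ 2 ^ i.1 := by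
            calc 8 = 2 ^ 3 := by norm_num
              _ ≤ 2 ^ i.1 := Nat.pow_le_pow_right (by norm_num) b2
          have h3 : 3 ≤ n := by omega
          have hlog := one_lt_log h3
          have h4 : Real.log n ≤ (i.1 + 2) * Real.log 2 := by
            have h5 : (n : ℝ) ≤ 2 ^ (i.1 + 2) := by
              exact_mod_cast (by omega : n ≤ 2 ^ (i.1 + 2))
            have h6 := Real.log_le_log (by positivity) h5
            rw [Real.log_pow] at h6
            push_cast at h6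
            exact h6
          have h5 : cp n = 1 / Real.log n := by
            unfold cp
            rw [if_pos h3]
          have h6 : cp n < 1 := by
            rw [h5, div_lt_one (by linarith)]
            exact hlog
          have h7 : cp n ≤ cp n / (1 - cp n) := by
            rw [le_div_iff₀ (by linarith)]
            have := cp_nonneg n
            nlinarith
          refine le_trans ?_ h7
          rw [h5]
          exact one_div_le_one_div_of_le (by linarith) h4)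
      rw [Nat.card_Ioc, Nat.add_sub_cancel_left] at h1
      exact h1)
    (by
      apply Summable.mul_left
      apply Summable.mul_of_nonneg (f := fun j : ℕ => 1 / ((j : ℝ) + 1) ^ 2)
        (g := fun m : ℕ => (1 / v) ^ m)
      · have h1 := (summable_nat_add_iff 1).2 (Real.summable_one_div_nat_pow.2 (one_lt_two))
        refine h1.congr fun j => ?_
        push_cast
        rfl
      · apply summable_geometric_of_lt_one (by positivity)
        rw [div_lt_one hv0]
        exact hv1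
      · intro j
        dsimp only [Pi.zero_apply]
        positivity
      · intro m
        dsimp only [Pi.zero_apply]
        positivity)
    (by
      intro i
      positivity)
    (by
      intro i hi
      obtain ⟨a1, a2, a3⟩ := hne i hi
      obtain ⟨b1, b2, b3, b4, b5, b6, b7⟩ := facts i a1 a2 a3
      have h1 := class_bound hε hε1 (by omega : 1 ≤ i.1) b1 a3 b3 b4 b5 b6 b7
        (c := ((A i).card : ℝ)) (by
          have h2 : (A i).card ≤ 2 ^ (i.1 + 2) / h i + 1 := by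
            simp only [hA]
            rw [if_pos ⟨a1, a2, a3⟩]
            refine (card_filter_le _ _).trans ?_
            rw [card_range]
          have h3 : ((A i).card : ℝ) ≤ ((2 ^ (i.1 + 2) / h i : ℕ) : ℝ) + 1 := by exact_mod_cast h2
          have h4 : ((2 ^ (i.1 + 2) / h i : ℕ) : ℝ) ≤ ((2 ^ (i.1 + 2) : ℕ) : ℝ) / (h i : ℝ) :=
            Nat.cast_div_le
          push_cast at h4
          linarith)
      refine h1.trans ?_
      have h2 : v ^ 3 ≤ 1 + ε / 4 := by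
        rw [hv]
        nlinarith [mul_pos hε hε]
      have h3 : (i.2 : ℝ) ≤ 16 / ε * v ^ i.2 := by
        have h4 := one_add_mul_le_pow (a := ε / 16) (by linarith) i.2
        have h5 : (i.2 : ℝ) * (ε / 16) ≤ v ^ i.2 := by
          rw [hv]
          linarith
        rw [div_mul_eq_mul_div, le_div_iff₀ hε]
        linarith
      have h4 : ((i.1 : ℝ) + 1) ^ 2 ≤ v ^ i.2 :=
        (hj₀ i.1 a1).2.2.2.2.trans (pow_le_pow_right₀ hv1.le a2)
      have hvp : 0 < v ^ i.2 := pow_pos hv0 _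
      have h5 : (v ^ i.2) ^ 3 ≤ (1 + ε / 4) ^ i.2 := by
        rw [← pow_mul, mul_comm, pow_mul]
        exact pow_le_pow_left₀ (by positivity) h2 _
      have h6 : (i.2 : ℝ) / (1 + ε / 4) ^ i.2 ≤ 16 / ε * ((1 / ((i.1 : ℝ) + 1) ^ 2) * (1 / v) ^ i.2) := by
        have hj2 : (0:ℝ) < ((i.1 : ℝ) + 1) ^ 2 := by positivity
        calc (i.2 : ℝ) / (1 + ε / 4) ^ i.2 ≤ (16 / ε * v ^ i.2) / (v ^ i.2) ^ 3 := by
              apply div_le_div₀ (by positivity) h3 (by positivity) h5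
          _ = 16 / ε * (1 / v ^ i.2 * (1 / v ^ i.2)) := by
              field_simp
          _ ≤ 16 / ε * (1 / ((i.1 : ℝ) + 1) ^ 2 * (1 / v ^ i.2)) := by
              apply mul_le_mul_of_nonneg_left _ (by positivity)
              apply mul_le_mul_of_nonneg_right _ (by positivity)
              exact one_div_le_one_div_of_le hj2 h4
          _ = _ := by rw [one_div_pow]
      calc 64 * Real.exp 1 * Real.exp 2 / ε * ((i.2 : ℝ) / (1 + ε / 4) ^ i.2)
          ≤ 64 * Real.exp 1 * Real.exp 2 / ε *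
            (16 / ε * ((1 / ((i.1 : ℝ) + 1) ^ 2) * (1 / v) ^ i.2)) :=
            mul_le_mul_of_nonneg_left h6 (by positivity)
        _ = _ := by rw [hC]; ring)
  filter_upwards [hbc] with ω hω
  obtain ⟨J, hJ⟩ : ∃ J : ℕ, ∀ i ∈ {i | ∃ k ∈ A i, ∀ n ∈ Ioc (k * h i) (k * h i + w i), ω ∉ E n},
      i.1 < J := by
    obtain ⟨B, hB⟩ := (hω.image Prod.fst).bddAbove
    exact ⟨B + 1, fun i hi => Nat.lt_succ_of_le (hB ⟨i, hi, rfl⟩)⟩
  filter_upwards [eventually_ge_atTop (2 ^ (max J j₀))] with x hx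
  have hx0 : x ≠ 0 := by
    have : 0 < 2 ^ (max J j₀) := by positivity
    omega
  set j : ℕ := Nat.log 2 x with hj
  have hjle : max J j₀ ≤ j := Nat.le_log_of_pow_le (by norm_num) hx
  have hjJ : J ≤ j := (le_max_left _ _).trans hjle
  have hjj : j₀ ≤ j := (le_max_right _ _).trans hjle
  have hxl : 2 ^ j ≤ x := Nat.pow_log_le_self 2 hx0
  have hxu : x < 2 ^ (j + 1) := Nat.lt_pow_succ_log_self (by norm_num) x
  set m : ℕ := ord κ x with hm
  have a2 : ord κ (2 ^ j) ≤ m := ord_mono hmono (Nat.one_le_two_pow) hxl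
  have a3 : m ≤ j := by
    have h1 : (m : ℝ) ≤ Real.log x := by
      have h2 : m ≤ ⌊Real.log x⌋₊ := min_le_right _ _
      refine le_trans (by exact_mod_cast h2) (Nat.floor_le (Real.log_nonneg ?_))
      exact_mod_cast (by omega : 1 ≤ x)
    have h2 : Real.log x ≤ (j + 1) * Real.log 2 := by
      have h3 : (x : ℝ) ≤ 2 ^ (j + 1) := by exact_mod_cast hxu.le
      have h4 := Real.log_le_log (by exact_mod_cast (by omega : 0 < x)) h3
      rw [Real.log_pow] at h4
      push_cast at h4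
      exact h4
    have h3 := (hj₀ j hjj).1
    have h4 : (3:ℝ) ≤ j := by exact_mod_cast h3
    have h5 : (m : ℝ) ≤ j := by nlinarith
    exact_mod_cast h5
  obtain ⟨b1, b2, b3, b4, b5, b6, b7⟩ := facts (j, m) hjj a2 a3
  dsimp only at b1 b2 b3 b4 b5 b6 b7
  have hhle : (h (j, m) : ℝ) ≤ ε / 4 * g (j, m) := Nat.floor_le (by positivity)
  have hwle : (w (j, m) : ℝ) ≤ (1 + ε / 2) * g (j, m) := Nat.floor_le (by positivity)
  have hh1 : 1 ≤ h (j, m) := by
    apply Nat.le_floor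
    rw [div_le_iff₀ hε] at b5
    push_cast
    linarith
  have hsum : h (j, m) + w (j, m) ≤ 2 ^ (j + 1) := by
    have : ((h (j, m) + w (j, m) : ℕ) : ℝ) ≤ 2 ^ (j + 1) := by
      push_cast
      rw [pow_succ]
      nlinarith
    exact_mod_cast this
  set k : ℕ := x / h (j, m) + 1 with hk
  have hk1 : x < k * h (j, m) := by
    rw [hk, mul_comm]
    exact Nat.lt_mul_div_succ x (by omega)
  have hk2 : k * h (j, m) ≤ x + h (j, m) := by
    rw [hk, add_mul, one_mul]
    have := Nat.div_mul_le_self x (h (j, m))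
    omega
  have hkA : k ∈ A (j, m) := by
    simp only [hA]
    rw [if_pos ⟨hjj, a2, a3⟩, mem_filter, mem_range]
    have h4 : 2 ^ (j + 2) = 2 ^ (j + 1) + 2 ^ (j + 1) := by ring
    refine ⟨?_, by omega, by omega, ?_⟩
    · rw [Nat.lt_succ_iff, Nat.le_div_iff_mul_le (by omega)]
      omega
    · have h5 : 2 * m ≤ κ x := by
        have h6 : m ≤ κ x / 2 := min_le_left _ _
        omega
      exact h5.trans (hmono hk1.le)
  by_contra hcon
  push Not at hcon
  have hbad : (j, m) ∈ {i | ∃ k ∈ A i, ∀ n ∈ Ioc (k * h i) (k * h i + w i), ω ∉ E n} := by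
    refine ⟨k, hkA, fun n hn => ?_⟩
    rw [mem_Ioc] at hn
    apply hcon n (by omega)
    have h6 : (n : ℝ) ≤ x + (h (j, m) + w (j, m)) := by
      exact_mod_cast (by omega : n ≤ x + (h (j, m) + w (j, m)))
    have h7 : g (j, m) ≤ GG m x := by
      simp only [hg]
      apply GG_mono b1 (one_lt_pow₀ (by norm_num) (by omega))
      exact_mod_cast hxl
    nlinarith
  have := hJ _ hbad
  dsimp only at this
  omega

end Q167.LI
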