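import Pool.Agent.Q167.LI.N

/-! # The largest gap for every order of independence: tools for the lower bound -/

set_option autoImplicit false

namespace Q167.LI

open Finset MeasureTheory Filter Topology Q198.CI

/-- from blocks in good ranges to a model -/
theorem scales_glue {κ a w K : ℕ → ℕ} {δ : ℕ → ℝ} (I : Set ℕ)
    (ha : Monotone a) (hw : ∀ i ∈ I, 1 ≤ w i)
    (hκ : ∀ i ∈ I, ∀ n, a i < n → n ≤ a (i + 1) → κ n ≤ K i)
    (hδ0 : ∀ i, 0 ≤ δ i)
    (hlaw : ∀ i ∈ I, ∀ B : Finset ℕ, B.card = w i → (∀ n ∈ B, a i < n ∧ n ≤ a (i + 1)) →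
      ∃ w' : Finset ℕ → ℝ, IsLaw B (K i) cp w' ∧ δ i ≤ w' ∅)
    (hcnt : ∀ i ∈ I, 1 ≤ (((a (i + 1) - a i) / w i : ℕ) : ℝ) * δ i)
    (hinf : ∃ᶠ i in atTop, i ∈ I) :
    ∃ (Ω : Type) (_ : MeasurableSpace Ω) (P : Measure Ω) (_ : IsProbabilityMeasure P)
      (E : ℕ → Set Ω), (∀ n, MeasurableSet (E n)) ∧
      (∀ T : Finset ℕ, (∀ n ∈ T, 3 ≤ n ∧ T.card ≤ κ n) →
        P (⋂ n ∈ T, E n) = ENNReal.ofReal (∏ n ∈ T, 1 / Real.log n)) ∧
      ∀ᵐ ω ∂P, ∀ i₀ : ℕ, ∃ i, i₀ ≤ i ∧ i ∈ I ∧ ∃ x, a i ≤ x ∧ x + w i ≤ a (i + 1) ∧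
        ∀ n, x < n → n ≤ x + w i → ω ∉ E n := by
  classical
  set cnt : ℕ → ℕ := fun i => if i ∈ I then (a (i + 1) - a i) / w i else 0 with hcntd
  have hin : ∀ i k, k < cnt i → i ∈ I ∧ (k + 1) * w i ≤ a (i + 1) - a i := by
    intro i k hk
    simp only [hcntd] at hk
    split_ifs at hk with h
    · exact ⟨h, (Nat.le_div_iff_mul_le (hw i h)).1 hk⟩
    · omega
  have hmem : ∀ i k n, k < cnt i → n ∈ Ioc (a i + k * w i) (a i + k * w i + w i) →
      a i < n ∧ n ≤ a (i + 1) := by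
    intro i k n hk hn
    obtain ⟨h1, h2⟩ := hin i k hk
    rw [mem_Ioc] at hn
    rw [add_mul, one_mul] at h2
    have h3 := hw i h1
    constructor
    · have : a i ≤ a i + k * w i := Nat.le_add_right _ _
      omega
    · omega
  obtain ⟨Ω, mΩ, P, hP, E, hE, hT, hae⟩ := scale_model
    (W := fun i k => Ioc (a i + k * w i) (a i + k * w i + w i))
    (cnt := cnt) (κ := κ) (K := K) (p := cp) (δ := δ)
    (by
      intro i k i' k' n hk hk' h1 h2
      obtain ⟨b1, b2⟩ := hmem i k n hk h1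
      obtain ⟨b3, b4⟩ := hmem i' k' n hk' h2
      have hii : i = i' := by
        rcases lt_trichotomy i i' with h | h | h
        · have := ha (show i + 1 ≤ i' from h)
          omega
        · exact h
        · have := ha (show i' + 1 ≤ i from h)
          omega
      subst hii
      refine ⟨rfl, ?_⟩
      rw [mem_Ioc] at h1 h2
      have hw1 := hw i (hin i k hk).1
      rcases lt_trichotomy k k' with h | h | h
      · have : (k + 1) * w i ≤ k' * w i := Nat.mul_le_mul_right _ h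
        rw [add_mul, one_mul] at this
        omega
      · exact h
      · have : (k' + 1) * w i ≤ k * w i := Nat.mul_le_mul_right _ h
        rw [add_mul, one_mul] at this
        omega)
    cp_nonneg cp_le_one
    (by
      intro i k n hk hn
      obtain ⟨b1, b2⟩ := hmem i k n hk hn
      exact hκ i (hin i k hk).1 n b1 b2)
    hδ0
    (by
      intro i k hk
      refine hlaw i (hin i k hk).1 _ ?_ (fun n hn => hmem i k n hk hn)
      rw [Nat.card_Ioc]
      omega)
    (fun _ => Set.univ)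
    (by
      intro _
      rw [Set.indicator_univ]
      intro hsum
      have h1 := hsum.tendsto_atTop_zero
      have h2 := h1.eventually_lt_const zero_lt_one
      obtain ⟨i, h3, h4⟩ := (hinf.and_eventually h2).exists
      have h5 := hcnt i h3
      simp only [hcntd, if_pos h3] at h4
      linarith)
  refine ⟨Ω, mΩ, P, hP, E, hE, ?_, ?_⟩
  · intro T hT'
    rw [hT T fun n hn => (hT' n hn).2]
    congr 1
    refine prod_congr rfl fun n hn => ?_
    unfold cp
    rw [if_pos (hT' n hn).1]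
  · filter_upwards [hae] with ω hω
    intro i₀
    obtain ⟨i, hi, _, k, hk, hkn⟩ := hω 0 i₀
    obtain ⟨h1, h2⟩ := hin i k hk
    rw [add_mul, one_mul] at h2
    have h3 := hw i h1
    refine ⟨i, hi, h1, a i + k * w i, by omega, by omega, fun n h4 h5 => ?_⟩
    exact hkn n (mem_Ioc.2 ⟨h4, h5⟩)

/-- the ranges -/
noncomputable def sc (i : ℕ) : ℕ := ⌈Real.exp ((i : ℝ) / 2)⌉₊

lemma sc_mono : Monotone sc := by
  intro i i' h
  unfold sc
  apply Nat.ceil_mono
  apply Real.exp_le_exp.2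
  have : (i : ℝ) ≤ i' := by exact_mod_cast h
  linarith

lemma le_sc (i : ℕ) : Real.exp ((i : ℝ) / 2) ≤ sc i := Nat.le_ceil _

lemma sc_lt (i : ℕ) : (sc i : ℝ) < Real.exp ((i : ℝ) / 2) + 1 :=
  Nat.ceil_lt_add_one (Real.exp_pos _).le

lemma lt_sc {i n : ℕ} (h : n < sc i) : (n : ℝ) < Real.exp ((i : ℝ) / 2) := Nat.lt_ceil.1 h

lemma one_le_sc (i : ℕ) : 1 ≤ sc i := Nat.ceil_pos.2 (Real.exp_pos _)

lemma log_ge_of_sc {i n : ℕ} (h : sc i ≤ n) : (i : ℝ) / 2 ≤ Real.log n := by
  have h1 : Real.exp ((i : ℝ) / 2) ≤ n := (le_sc i).trans (by exact_mod_cast h)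
  rw [Real.le_log_iff_exp_le (lt_of_lt_of_le (Real.exp_pos _) h1)]
  exact h1

lemma tendsto_sc : Tendsto sc atTop atTop := by
  have h1 : Tendsto (fun i : ℕ => Real.exp ((i : ℝ) / 2)) atTop atTop :=
    Real.tendsto_exp_atTop.comp (tendsto_natCast_atTop_atTop.atTop_div_const two_pos)
  have h2 : Tendsto (fun i : ℕ => (sc i : ℝ)) atTop atTop := tendsto_atTop_mono le_sc h1
  exact tendsto_natCast_atTop_iff.1 h2

/-- ranges on which the order is constant and small -/
lemma good_scales {κ : ℕ → ℕ} (hmono : Monotone κ) {b : ℝ} (hb : b < 2)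
    (h : ∃ᶠ n : ℕ in atTop, (κ n : ℝ) ≤ b * Real.log n) :
    ∃ b' : ℝ, 0 < b' ∧ b' < 2 ∧
      ∃ᶠ i : ℕ in atTop, κ (sc (i + 1)) = κ (sc i) ∧ (κ (sc i) : ℝ) ≤ b' * ((i : ℝ) / 2) := by
  obtain ⟨b', hb1, hb2⟩ := exists_between (max_lt hb (zero_lt_two (α := ℝ)))
  have hbb : b < b' := lt_of_le_of_lt (le_max_left _ _) hb1
  have hb0 : 0 < b' := lt_of_le_of_lt (le_max_right _ _) hb1
  refine ⟨b', hb0, hb2, ?_⟩
  by_contra hcon
  rw [not_frequently] at hcon
  obtain ⟨i₀, hi₀⟩ := eventually_atTop.1 hcon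
  set C : ℝ := b' * ((i₀ : ℝ) / 2) + 1 with hC
  have hC1 : 1 ≤ C := by
    have : 0 ≤ b' * ((i₀ : ℝ) / 2) := by positivity
    linarith
  have hind : ∀ i, i₀ ≤ i → b' * ((i : ℝ) / 2) - C ≤ κ (sc i) := by
    intro i hi
    induction i, hi using Nat.le_induction with
    | base =>
      have : (0:ℝ) ≤ κ (sc i₀) := Nat.cast_nonneg _
      linarith
    | succ i hi ih =>
      have h1 := hi₀ i hi
      have h2 : κ (sc i) ≤ κ (sc (i + 1)) := hmono (sc_mono (Nat.le_succ i))
      have h2' : (κ (sc i) : ℝ) ≤ κ (sc (i + 1)) := by exact_mod_cast h2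
      push_cast
      by_cases h3 : κ (sc (i + 1)) = κ (sc i)
      · have h4 : ¬ (κ (sc i) : ℝ) ≤ b' * ((i : ℝ) / 2) := fun h => h1 ⟨h3, h⟩
        push Not at h4
        linarith
      · have h4 : κ (sc i) + 1 ≤ κ (sc (i + 1)) := by omega
        have h5 : (κ (sc i) : ℝ) + 1 ≤ κ (sc (i + 1)) := by exact_mod_cast h4
        linarith
  have hlog : Tendsto (fun n : ℕ => Real.log (n : ℝ)) atTop atTop := tendsto_log_nat
  have h1 : Tendsto (fun n : ℕ => (b' - b) * Real.log n) atTop atTop :=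
    hlog.const_mul_atTop (by linarith)
  obtain ⟨n, hn, h2, h3, h4⟩ := (h.and_eventually ((h1.eventually_gt_atTop (b' / 2 + C)).and
    ((hlog.eventually_ge_atTop ((i₀ : ℝ) + 1)).and (eventually_ge_atTop 1)))).exists
  have hn0 : (0:ℝ) < n := by exact_mod_cast h4
  have hl0 : 0 ≤ Real.log n := by
    have : (0:ℝ) ≤ i₀ := Nat.cast_nonneg _
    linarith
  set i : ℕ := ⌊2 * Real.log n⌋₊ with hi
  have h5 : (i : ℝ) ≤ 2 * Real.log n := Nat.floor_le (by linarith)
  have h6 : 2 * Real.log n < i + 1 := Nat.lt_floor_add_one _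
  have h7 : i₀ ≤ i := by
    apply Nat.le_floor
    have : (0:ℝ) ≤ i₀ := Nat.cast_nonneg _
    linarith
  have h8 : sc i ≤ n := by
    unfold sc
    apply Nat.ceil_le.2
    rw [← Real.le_log_iff_exp_le hn0]
    linarith
  have h9 : (κ (sc i) : ℝ) ≤ κ n := by exact_mod_cast hmono h8
  have h10 := hind i h7
  nlinarith

/-- a lower bound for the gap function -/
lemma GG_low {m : ℕ} {L τ : ℝ} (hm : 1 ≤ m) (hL : 0 < L)
    (h : m + Real.log m + Real.log L + (m + 1) * τ ≤ L) :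
    Real.exp τ * (m * L) ≤ GG m (Real.exp L) := by
  have hm0 : (0:ℝ) < m := by exact_mod_cast hm
  have hx : 1 < Real.exp L := Real.one_lt_exp_iff.2 hL
  apply le_GG hm hx (by positivity)
  rw [Real.log_exp]
  have e1 : (m : ℝ) * L = Real.exp (Real.log m + Real.log L) := by
    rw [Real.exp_add, Real.exp_log hm0, Real.exp_log hL]
  have e2 : (Real.exp τ * (m * L)) ^ (m + 1) =
      Real.exp ((m + 1) * τ + (Real.log m + Real.log L)) * (m * L) ^ m := by
    rw [mul_pow, ← Real.exp_nat_mul, pow_succ (m * L : ℝ), Real.exp_add, ← e1]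
    push_cast
    ring
  have e3 : Real.exp L * (m / Real.exp 1 * L) ^ m = Real.exp (L - m) * (m * L) ^ m := by
    have : (m : ℝ) / Real.exp 1 * L = (m * L) * Real.exp (-1) := by
      rw [Real.exp_neg]
      ring
    rw [this, mul_pow, ← Real.exp_nat_mul, Real.exp_sub, mul_neg_one, Real.exp_neg]
    ring
  rw [e2, e3]
  apply mul_le_mul_of_nonneg_right _ (by positivity)
  apply Real.exp_le_exp.2
  linarith

/-- the gap function changes little in a range -/
lemma GG_range {m : ℕ} {L x : ℝ} (hm : 1 ≤ m) (hL : 0 < L) (hmL : m ≤ L) (hx1 : 1 < x)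
    (hx : x ≤ Real.exp (L + 1 / 2)) :
    GG m x ≤ Real.exp (1 / ((m : ℝ) + 1)) * GG m (Real.exp L) := by
  have hm0 : (0:ℝ) < m := by exact_mod_cast hm
  have hX : 1 < Real.exp L := Real.one_lt_exp_iff.2 hL
  have hg := GG_pos hm hX
  refine (GG_mono hm hx1 hx).trans ?_
  apply GG_le hm (by linarith) (by positivity)
  rw [Real.log_exp, mul_pow (Real.exp (1 / ((m : ℝ) + 1))), GG_pow hm hX, Real.log_exp,
    ← Real.exp_nat_mul]
  have e1 : ((m + 1 : ℕ) : ℝ) * (1 / ((m : ℝ) + 1)) = 1 := by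
    push_cast
    field_simp
  rw [e1]
  have h1 : (m / Real.exp 1 * (L + 1 / 2)) ^ m ≤
      (m / Real.exp 1 * L) ^ m * Real.exp (1 / 2) := by
    have h2 : L + 1 / 2 ≤ L * Real.exp (1 / (2 * L)) := by
      have := Real.add_one_le_exp (1 / (2 * L))
      have h3 := mul_le_mul_of_nonneg_left this hL.le
      have h4 : L * (1 / (2 * L) + 1) = L + 1 / 2 := by
        field_simp
        ring
      linarith
    have h3 : (m / Real.exp 1 * (L + 1 / 2)) ^ m ≤
        ((m / Real.exp 1 * L) * Real.exp (1 / (2 * L))) ^ m := by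
      apply pow_le_pow_left₀ (by positivity)
      have := mul_le_mul_of_nonneg_left h2 (by positivity : (0:ℝ) ≤ m / Real.exp 1)
      linarith
    refine h3.trans ?_
    rw [mul_pow]
    apply mul_le_mul_of_nonneg_left _ (by positivity)
    rw [← Real.exp_nat_mul]
    apply Real.exp_le_exp.2
    rw [mul_one_div, div_le_div_iff₀ (by positivity) two_pos]
    linarith
  calc Real.exp (L + 1 / 2) * (m / Real.exp 1 * (L + 1 / 2)) ^ m
      ≤ Real.exp (L + 1 / 2) * ((m / Real.exp 1 * L) ^ m * Real.exp (1 / 2)) :=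
        mul_le_mul_of_nonneg_left h1 (Real.exp_pos _).le
    _ = (Real.exp (1 / 2) * Real.exp (1 / 2)) * (Real.exp L * (m / Real.exp 1 * L) ^ m) := by
        rw [Real.exp_add]
        ring
    _ = _ := by
        rw [← Real.exp_add]
        norm_num

end Q167.LI
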