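import Pool.Agent.Q167.LI.S

/-! # The largest gap for every order of independence: large orders, and the theorem -/

set_option autoImplicit false

namespace Q167.LI

open Finset MeasureTheory Filter Topology Q198.CI

/-- for orders near `2 log x` the gap function is about `log² x` -/
lemma GG_near {ε : ℝ} (hε : 0 < ε) : ∃ η : ℝ, 0 < η ∧ η < 1 ∧ ∀ᶠ L : ℝ in atTop,
    ∀ (m : ℕ) (x : ℝ), (1 - η) * L ≤ m → (m : ℝ) ≤ L + 1 / 2 → 1 < x →
      x ≤ Real.exp (L + 1 / 2) → GG m x ≤ (1 + ε) * L ^ 2 := by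
  have hl : 0 < Real.log (1 + ε) := Real.log_pos (by linarith)
  set η : ℝ := min (1 / 2) (Real.log (1 + ε) / 4) with hη
  have hη0 : 0 < η := lt_min (by norm_num) (by positivity)
  have hη1 : η ≤ 1 / 2 := min_le_left _ _
  have hη2 : η ≤ Real.log (1 + ε) / 4 := min_le_right _ _
  refine ⟨η, hη0, by linarith, ?_⟩
  filter_upwards [eventually_ge_atTop (2 / η), eventually_ge_atTop (2:ℝ)] with L g1 g2 m x h1 h2 h3 h4
  rw [div_le_iff₀ hη0] at g1
  have hL0 : 0 < L := by linarith
  have hm0 : (0:ℝ) < m := by nlinarith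
  have hm1 : 1 ≤ m := by exact_mod_cast hm0
  have he := Real.exp_pos 1
  refine (GG_mono hm1 h3 h4).trans ?_
  have hX1 : 1 < Real.exp (L + 1 / 2) := Real.one_lt_exp_iff.2 (by linarith)
  apply GG_le hm1 hX1 (by positivity)
  rw [Real.log_exp]
  have e1 : (m : ℝ) / Real.exp 1 * (L + 1 / 2) ≤ Real.exp (-1) * (L + 1 / 2) ^ 2 := by
    rw [Real.exp_neg]
    calc (m : ℝ) / Real.exp 1 * (L + 1 / 2) = (Real.exp 1)⁻¹ * (m * (L + 1 / 2)) := by ring
      _ ≤ (Real.exp 1)⁻¹ * ((L + 1 / 2) * (L + 1 / 2)) := by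
          apply mul_le_mul_of_nonneg_left _ (by positivity)
          exact mul_le_mul_of_nonneg_right h2 (by linarith)
      _ = _ := by ring
  have e2 : L + 1 / 2 ≤ L * Real.exp (1 / (2 * L)) := by
    have := Real.add_one_le_exp (1 / (2 * L))
    have h5 := mul_le_mul_of_nonneg_left this hL0.le
    have h6 : L * (1 / (2 * L) + 1) = L + 1 / 2 := by
      field_simp
      ring
    linarith
  have e3 : (m / Real.exp 1 * (L + 1 / 2)) ^ m ≤
      Real.exp (-m) * (L ^ 2) ^ m * Real.exp (3 / 2) := by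
    have h5 : (m : ℝ) / Real.exp 1 * (L + 1 / 2) ≤
        Real.exp (-1) * (L ^ 2 * Real.exp (1 / L)) := by
      refine e1.trans ?_
      apply mul_le_mul_of_nonneg_left _ (Real.exp_pos _).le
      refine (pow_le_pow_left₀ (by linarith) e2 2).trans (le_of_eq ?_)
      rw [mul_pow, ← Real.exp_nat_mul]
      congr 2
      push_cast
      field_simp
    refine (pow_le_pow_left₀ (by positivity) h5 m).trans ?_
    rw [mul_pow, mul_pow, ← Real.exp_nat_mul, ← Real.exp_nat_mul, mul_assoc]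
    have h6 : (m : ℝ) * (1 / L) ≤ 3 / 2 := by
      rw [mul_one_div, div_le_iff₀ hL0]
      linarith
    have h7 : (m : ℝ) * -1 = -m := by ring
    rw [h7]
    apply mul_le_mul_of_nonneg_left _ (Real.exp_pos _).le
    apply mul_le_mul_of_nonneg_left _ (by positivity)
    exact Real.exp_le_exp.2 h6
  have hP : 0 ≤ (L ^ 2) ^ m := by positivity
  calc Real.exp (L + 1 / 2) * (m / Real.exp 1 * (L + 1 / 2)) ^ m
      ≤ Real.exp (L + 1 / 2) * (Real.exp (-m) * (L ^ 2) ^ m * Real.exp (3 / 2)) :=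
        mul_le_mul_of_nonneg_left e3 (Real.exp_pos _).le
    _ = (Real.exp (L + 1 / 2) * Real.exp (-m) * Real.exp (3 / 2)) * (L ^ 2) ^ m := by ring
    _ ≤ ((1 + ε) ^ (m + 1) * L ^ 2) * (L ^ 2) ^ m := by
        apply mul_le_mul_of_nonneg_right _ hP
        rw [← Real.exp_add, ← Real.exp_add]
        have h5 : (1 + ε) ^ (m + 1) = Real.exp (((m : ℝ) + 1) * Real.log (1 + ε)) := by
          rw [← Real.rpow_natCast, Real.rpow_def_of_pos (by linarith)]
          push_cast
          congr 1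
          ring
        rw [h5]
        have h6 : L + 1 / 2 + -m + 3 / 2 ≤ ((m : ℝ) + 1) * Real.log (1 + ε) := by
          have h7 : (m : ℝ) * (4 * η) ≤ m * Real.log (1 + ε) :=
            mul_le_mul_of_nonneg_left (by linarith) hm0.le
          have h8 : L / 2 * (4 * η) ≤ m * (4 * η) :=
            mul_le_mul_of_nonneg_right (by nlinarith) (by positivity)
          nlinarith
        refine (Real.exp_le_exp.2 h6).trans ?_
        apply le_mul_of_one_le_right (Real.exp_pos _).le
        nlinarith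
    _ = _ := by
        rw [mul_pow, pow_succ (L ^ 2)]
        ring

theorem lower_B {κ : ℕ → ℕ} (hmono : Monotone κ)
    (hB : ∀ b : ℝ, b < 2 → ∀ᶠ n : ℕ in atTop, b * Real.log n ≤ κ n) :
    ∃ (Ω : Type) (_ : MeasurableSpace Ω) (P : Measure Ω) (_ : IsProbabilityMeasure P)
      (E : ℕ → Set Ω), (∀ n, MeasurableSet (E n)) ∧
      (∀ T : Finset ℕ, (∀ n ∈ T, 3 ≤ n ∧ T.card ≤ κ n) →
        P (⋂ n ∈ T, E n) = ENNReal.ofReal (∏ n ∈ T, 1 / Real.log n)) ∧
      ∀ᵐ ω ∂P, ∀ ε : ℝ, 0 < ε → ∃ᶠ x : ℕ in atTop, ∀ n : ℕ, x < n →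
        (n : ℝ) ≤ x + (1 - ε) * GG (ord κ x) x → ω ∉ E n := by
  classical
  have hLt : Tendsto (fun i : ℕ => (i : ℝ) / 2) atTop atTop :=
    tendsto_natCast_atTop_atTop.atTop_div_const two_pos
  set w : ℕ → ℕ := fun i => ⌊(1 - 1 / Real.sqrt ((i : ℝ) / 2)) * ((i : ℝ) / 2) ^ 2⌋₊ with hw
  have hinv : Tendsto (fun L : ℝ => 1 / Real.sqrt L) atTop (𝓝 0) := by
    refine (tendsto_inv_atTop_zero.comp Real.tendsto_sqrt_atTop).congr fun M => ?_
    rw [Function.comp_apply, one_div]
  have hinv2 : Tendsto (fun L : ℝ => 1 / L) atTop (𝓝 0) := by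
    simpa using tendsto_inv_atTop_zero (𝕜 := ℝ)
  -- conditions on L
  have hev : ∀ᶠ L : ℝ in atTop, 4 ≤ L ∧ 1 / Real.sqrt L ≤ 1 / 2 ∧
      10 * L ^ 2 ≤ Real.exp L ∧ 25 ≤ Real.exp L ∧
      4 * L ^ 2 ≤ Real.exp (Real.sqrt L - 2) := by
    have t3 := Real.tendsto_pow_mul_exp_neg_atTop_nhds_zero 2
    have t4 := Real.tendsto_pow_mul_exp_neg_atTop_nhds_zero 4
    have t3' : Tendsto (fun L : ℝ => 10 * (L ^ 2 * Real.exp (-L))) atTop (𝓝 (10 * 0)) :=
      t3.const_mul _
    have t4' : Tendsto (fun L : ℝ => 4 * Real.exp 2 * (Real.sqrt L ^ 4 * Real.exp (-Real.sqrt L)))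
        atTop (𝓝 (4 * Real.exp 2 * 0)) := (t4.comp Real.tendsto_sqrt_atTop).const_mul _
    rw [mul_zero] at t3' t4'
    filter_upwards [eventually_ge_atTop 4, hinv.eventually_le_const (show (0:ℝ) < 1 / 2 by norm_num),
      t3'.eventually_le_const zero_lt_one, Real.tendsto_exp_atTop.eventually_ge_atTop 25,
      t4'.eventually_le_const zero_lt_one] with L g1 g2 g3 g4 g5
    refine ⟨g1, g2, ?_, g4, ?_⟩
    · rw [Real.exp_neg] at g3
      have hX := Real.exp_pos L
      have e1 : 10 * (L ^ 2 * (Real.exp L)⁻¹) = (10 * L ^ 2) / Real.exp L := by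
        field_simp
      rw [e1, div_le_one hX] at g3
      exact g3
    · have hX := Real.exp_pos (Real.sqrt L)
      have hX2 := Real.exp_pos 2
      have e0 : Real.sqrt L ^ 4 = L ^ 2 := by
        rw [show (4:ℕ) = 2 * 2 by norm_num, pow_mul, Real.sq_sqrt (by linarith)]
      rw [Real.exp_neg, e0] at g5
      have e1 : 4 * Real.exp 2 * (L ^ 2 * (Real.exp (Real.sqrt L))⁻¹) =
          (4 * L ^ 2 * Real.exp 2) / Real.exp (Real.sqrt L) := by
        field_simp
      rw [e1, div_le_one hX] at g5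
      rw [Real.exp_sub, le_div_iff₀ hX2]
      exact g5
  obtain ⟨i₁, hi₁⟩ := eventually_atTop.1 ((hLt.eventually hev).and
    (tendsto_sc.eventually_ge_atTop 2))
  set I : Set ℕ := {i | i₁ ≤ i} with hId
  have facts : ∀ i ∈ I, 4 ≤ (i : ℝ) / 2 ∧ 1 ≤ w i ∧ 2 ≤ sc i ∧
      (w i : ℝ) ≤ (1 - 1 / Real.sqrt ((i : ℝ) / 2)) * ((i : ℝ) / 2) ^ 2 ∧
      (w i : ℝ) ≤ ((i : ℝ) / 2) ^ 2 := by
    intro i hi
    obtain ⟨⟨g1, g2, g3, g4, g5⟩, g6⟩ := hi₁ i hi
    set L : ℝ := (i : ℝ) / 2 with hL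
    have h1 : 0 ≤ (1 - 1 / Real.sqrt L) * L ^ 2 := mul_nonneg (by linarith) (by positivity)
    have h2 : (w i : ℝ) ≤ (1 - 1 / Real.sqrt L) * L ^ 2 := Nat.floor_le h1
    have h3 : 0 ≤ 1 / Real.sqrt L := by positivity
    refine ⟨g1, ?_, g6, h2, h2.trans ?_⟩
    · apply Nat.le_floor
      push_cast
      nlinarith
    · exact mul_le_of_le_one_left (by positivity) (by linarith)
  refine finish (κ := κ) (w := w) (I := I) ?_ (fun i hi => (facts i hi).2.1) ?_
  · intro ε hε
    rcases lt_or_ge ε 1 with hε1 | hε1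
    swap
    · refine Eventually.of_forall fun i hi x hx1 hx2 => ?_
      have h1 : 0 ≤ GG (ord κ x) x := by
        unfold GG
        have h2 : 0 ≤ Real.log (x : ℝ) := by
          apply Real.log_nonneg
          have := one_le_sc i
          exact_mod_cast (by omega : 1 ≤ x)
        positivity
      have h2 : (1 - ε) * GG (ord κ x) x ≤ 0 := mul_nonpos_of_nonpos_of_nonneg (by linarith) h1
      exact h2.trans (Nat.cast_nonneg _)
    · obtain ⟨η, hη0, hη1, hG⟩ := GG_near (ε := ε / 2) (by positivity)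
      obtain ⟨N₁, hN₁⟩ := eventually_atTop.1 (hB (2 - η) (by linarith))
      have t5 : Tendsto (fun L : ℝ => η * L) atTop atTop := tendsto_id.const_mul_atTop hη0
      have t6 : Tendsto (fun L : ℝ => ε / 4 * L) atTop atTop :=
        tendsto_id.const_mul_atTop (by positivity)
      filter_upwards [hLt.eventually hG, tendsto_sc.eventually_ge_atTop N₁,
        hLt.eventually (t5.eventually_ge_atTop 1), hLt.eventually (t6.eventually_ge_atTop 1),
        hLt.eventually (hinv.eventually_le_const (show (0:ℝ) < ε / 4 by positivity))]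
        with i g1 g2 g3 g4 g5 hi x hx1 hx2
      obtain ⟨f1, f2, f3, f4, f5⟩ := facts i hi
      have hwlt : (1 - 1 / Real.sqrt ((i : ℝ) / 2)) * ((i : ℝ) / 2) ^ 2 < w i + 1 :=
        Nat.lt_floor_add_one _
      set L : ℝ := (i : ℝ) / 2 with hL
      have hx2' : 2 ≤ x := f3.trans hx1
      have hlogx : L ≤ Real.log x := log_ge_of_sc hx1
      have hx3 : (x : ℝ) ≤ Real.exp (L + 1 / 2) := by
        have h3 := lt_sc hx2
        push_cast at h3
        have h4 : ((i : ℝ) + 1) / 2 = L + 1 / 2 := by rw [hL]; ring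
        rw [h4] at h3
        exact h3.le
      have hx0 : (0:ℝ) < x := by exact_mod_cast (by omega : 0 < x)
      have hlogx2 : Real.log x ≤ L + 1 / 2 := by
        have := Real.log_le_log hx0 hx3
        rwa [Real.log_exp] at this
      have hκx := hN₁ x (g2.trans hx1)
      have hord1 : (1 - η) * L ≤ ord κ x := by
        unfold ord
        rw [Nat.cast_min]
        apply le_min
        · have h5 : (κ x : ℝ) ≤ 2 * ((κ x / 2 : ℕ) : ℝ) + 1 := by
            have : κ x ≤ 2 * (κ x / 2) + 1 := by omega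
            exact_mod_cast this
          have h6 : (2 - η) * L ≤ (2 - η) * Real.log x :=
            mul_le_mul_of_nonneg_left hlogx (by linarith)
          nlinarith
        · have h5 := (Nat.lt_floor_add_one (Real.log x)).le
          nlinarith
      have hord2 : (ord κ x : ℝ) ≤ L + 1 / 2 := by
        refine le_trans ?_ hlogx2
        have h5 : ord κ x ≤ ⌊Real.log x⌋₊ := min_le_right _ _
        refine le_trans (by exact_mod_cast h5) (Nat.floor_le (by linarith))
      have h1 := g1 (ord κ x) x hord1 hord2 (by exact_mod_cast (by omega : 1 < x)) hx3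
      have hL2 : 1 ≤ ε / 4 * L ^ 2 := by nlinarith
      have h2 : (1 - ε) * GG (ord κ x) x ≤ (1 - ε) * ((1 + ε / 2) * L ^ 2) :=
        mul_le_mul_of_nonneg_left h1 (by linarith)
      have h3 : 1 / Real.sqrt L * L ^ 2 ≤ ε / 4 * L ^ 2 :=
        mul_le_mul_of_nonneg_right g5 (by positivity)
      have h4 : (1 - ε) * ((1 + ε / 2) * L ^ 2) ≤ L ^ 2 - ε / 2 * L ^ 2 := by
        have h5 : 0 ≤ ε ^ 2 / 2 * L ^ 2 := by positivity
        have h6 : (1 - ε) * ((1 + ε / 2) * L ^ 2) = L ^ 2 - ε / 2 * L ^ 2 - ε ^ 2 / 2 * L ^ 2 := by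
          ring
        linarith
      have h7 : (1 - 1 / Real.sqrt L) * L ^ 2 = L ^ 2 - 1 / Real.sqrt L * L ^ 2 := by ring
      rw [h7] at hwlt
      linarith
  · refine scales_glue (κ := κ) (a := sc) (w := w) (K := fun i => κ (sc (i + 1)))
      (δ := fun i => Real.exp (-((w i : ℝ) / ((i : ℝ) / 2 - 1)))) I sc_mono
      (fun i hi => (facts i hi).2.1) ?_ ?_ ?_ ?_ ?_
    · intro i _ n _ hn
      exact hmono hn
    · intro i
      positivity
    · intro i hi B hBc hB'
      obtain ⟨f1, f2, f3, f4, f5⟩ := facts i hi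
      obtain ⟨w', w1, w2⟩ := block_indep (I := B) (L := (i : ℝ) / 2) (κ (sc (i + 1)))
        (by linarith) (fun y hy => by
          have h1 := (hB' y hy).1
          exact ⟨by omega, log_ge_of_sc h1.le⟩)
      rw [hBc] at w2
      exact ⟨w', w1, w2⟩
    · intro i hi
      obtain ⟨f1, f2, f3, f4, f5⟩ := facts i hi
      obtain ⟨⟨g1, g2, g3, g4, g5⟩, g6⟩ := hi₁ i hi
      have hD := scale_len i
      set D : ℕ := sc (i + 1) - sc i with hDd
      set L : ℝ := (i : ℝ) / 2 with hL
      set X : ℝ := Real.exp L with hX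
      set W : ℕ := w i with hW
      have hL0 : 0 < L := by linarith
      have hW0 : (0:ℝ) < W := by exact_mod_cast f2
      have hX0 : 0 < X := Real.exp_pos _
      set q : ℕ := D / W with hq
      have hDq : (D : ℝ) < W * (q + 1) := by
        have := Nat.lt_mul_div_succ D (show 0 < W by omega)
        rw [hq]
        exact_mod_cast this
      have hexph : 3 / 2 * X ≤ Real.exp (L + 1 / 2) := by
        rw [Real.exp_add, ← hX, mul_comm]
        have := Real.add_one_le_exp (1 / 2 : ℝ)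
        apply mul_le_mul_of_nonneg_left _ hX0.le
        linarith
      have hqw : X / 4 ≤ q * W := by
        have e0 : (W : ℝ) * (q + 1) = q * W + W := by ring
        rw [e0] at hDq
        linarith
      have hexpo : (W : ℝ) / (L - 1) ≤ L + 2 - Real.sqrt L := by
        rw [div_le_iff₀ (by linarith)]
        refine f4.trans ?_
        have hs : 0 < Real.sqrt L := Real.sqrt_pos.2 hL0
        have hss : Real.sqrt L * Real.sqrt L = L := Real.mul_self_sqrt hL0.le
        have e1 : (1 - 1 / Real.sqrt L) * L ^ 2 = L ^ 2 - Real.sqrt L * L := by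
          have : 1 / Real.sqrt L * L ^ 2 = Real.sqrt L * L := by
            rw [div_mul_eq_mul_div, one_mul, div_eq_iff hs.ne']
            calc L ^ 2 = L * L := by ring
              _ = (Real.sqrt L * Real.sqrt L) * L := by rw [hss]
              _ = _ := by ring
          rw [sub_mul, one_mul, this]
        rw [e1]
        nlinarith
      have h1 : Real.exp (-(L + 2 - Real.sqrt L)) ≤ Real.exp (-((W : ℝ) / (L - 1))) :=
        Real.exp_le_exp.2 (by linarith)
      have h2 : Real.exp (-(L + 2 - Real.sqrt L)) = Real.exp (Real.sqrt L - 2) / X := by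
        rw [hX, ← Real.exp_sub]
        congr 1
        ring
      rw [h2] at h1
      have h3 : 4 * L ^ 2 / X ≤ Real.exp (-((W : ℝ) / (L - 1))) := by
        refine le_trans ?_ h1
        exact div_le_div_of_nonneg_right g5 hX0.le
      have h4 : (1:ℝ) ≤ q * (4 * L ^ 2 / X) := by
        rw [mul_div_assoc', le_div_iff₀ hX0]
        have h5 : (q : ℝ) * W ≤ q * L ^ 2 := mul_le_mul_of_nonneg_left f5 (Nat.cast_nonneg _)
        linarith
      exact h4.trans (mul_le_mul_of_nonneg_left h3 (Nat.cast_nonneg _))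
    · exact (eventually_ge_atTop i₁).frequently

/-- the lower bound for the largest gap -/
theorem univ_lower {κ : ℕ → ℕ} (hmono : Monotone κ) (hκ : Fast κ) :
    ∃ (Ω : Type) (_ : MeasurableSpace Ω) (P : Measure Ω) (_ : IsProbabilityMeasure P)
      (E : ℕ → Set Ω), (∀ n, MeasurableSet (E n)) ∧
      (∀ T : Finset ℕ, (∀ n ∈ T, 3 ≤ n ∧ T.card ≤ κ n) →
        P (⋂ n ∈ T, E n) = ENNReal.ofReal (∏ n ∈ T, 1 / Real.log n)) ∧
      ∀ᵐ ω ∂P, ∀ ε : ℝ, 0 < ε → ∃ᶠ x : ℕ in atTop, ∀ n : ℕ, x < n →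
        (n : ℝ) ≤ x + (1 - ε) * GG (ord κ x) x → ω ∉ E n := by
  by_cases h : ∃ b : ℝ, b < 2 ∧ ∃ᶠ n : ℕ in atTop, (κ n : ℝ) ≤ b * Real.log n
  · obtain ⟨b, hb, hf⟩ := h
    obtain ⟨b', h1, h2, h3⟩ := good_scales hmono hb hf
    exact lower_A hmono hκ h1 h2 h3
  · push Not at h
    refine lower_B hmono fun b hb => ?_
    filter_upwards [h b hb] with n hn
    exact hn.le

end Q167.LI
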